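import Pool.Agent.H.MP_bfbbee_an.helper78.Diam
import Pool.Agent.H.MP_bfbbee_an.SymA
import Pool.Agent.H.MP_bfbbee_an.MobC

/-!
MP_bfbbee_an (helper78). Minimal rays with the same end point stay at a bounded distance.
-/

set_option autoImplicit false

namespace Pool.Agent.H.MP_bfbbee_an.FL

open Filter Topology

theorem one_sub_conj_mob {w a z p : ℂ} (hw : ‖w‖ = 1) (ha : ‖a‖ < 1) (hz : ‖z‖ ≤ 1)
    (hp : ‖p‖ ≤ 1) :
    ‖1 - (starRingEnd ℂ) (mob w a z) * mob w a p‖ = (1 - ‖a‖ ^ 2) *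
      ‖1 - (starRingEnd ℂ) z * p‖ /
        (‖1 - (starRingEnd ℂ) a * z‖ * ‖1 - (starRingEnd ℂ) a * p‖) := by
  have h1 := den_ne ha hz
  have h2 := den_ne ha hp
  have h3 : (starRingEnd ℂ) w * w = 1 := mob_aux5 hw
  have h4 : 1 - a * (starRingEnd ℂ) z ≠ 0 := by
    intro h0
    apply h1
    have := congrArg (starRingEnd ℂ) h0
    simpa using this
  have h5 : 1 - (starRingEnd ℂ) (mob w a z) * mob w a p =
      (1 - ((‖a‖ : ℝ) : ℂ) ^ 2) * (1 - (starRingEnd ℂ) z * p) /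
        ((1 - a * (starRingEnd ℂ) z) * (1 - (starRingEnd ℂ) a * p)) := by
    have h6 : ((‖a‖ : ℝ) : ℂ) ^ 2 = a * (starRingEnd ℂ) a := by
      rw [Complex.mul_conj, Complex.normSq_eq_norm_sq]
      push_cast
      rfl
    unfold mob
    rw [h6, map_div₀, map_mul, map_sub, map_sub, map_mul, map_one, Complex.conj_conj,
      div_mul_div_comm, eq_div_iff (mul_ne_zero h4 h2), sub_mul, div_mul_cancel₀ _
        (mul_ne_zero h4 h2)]
    linear_combination (-((starRingEnd ℂ) z - (starRingEnd ℂ) a) * (p - a)) * h3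
  rw [h5, norm_div, norm_mul, norm_mul, mob_aux2 ha]
  congr 2
  have h7 : 1 - a * (starRingEnd ℂ) z = (starRingEnd ℂ) (1 - (starRingEnd ℂ) a * z) := by
    simp
  rw [h7, RCLike.norm_conj]

/-- Lower bound for the distance of the images of two points of the closed disc. -/
theorem mob_sep {w a z p q : ℂ} (hw : ‖w‖ = 1) (ha : ‖a‖ < 1) (hz : z ∈ Disc) (hp : ‖p‖ ≤ 1)
    (hq : ‖q‖ ≤ 1) {R : ℝ} (hR : R < 1) (hm : ‖mob w a z‖ ≤ R) :
    (1 - R) ^ 2 * (‖p - q‖ * (1 - ‖z‖ ^ 2)) ≤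
      ‖mob w a p - mob w a q‖ *
        (‖1 - (starRingEnd ℂ) z * p‖ * ‖1 - (starRingEnd ℂ) z * q‖) := by
  have hz1 : ‖z‖ ≤ 1 := (by simpa [Disc] using hz : ‖z‖ < 1).le
  have hR1 : 0 < 1 - R := by linarith
  have key : ∀ y : ℂ, ‖y‖ ≤ 1 → (1 - R) * (‖1 - (starRingEnd ℂ) a * z‖ *
      ‖1 - (starRingEnd ℂ) a * y‖) ≤ (1 - ‖a‖ ^ 2) * ‖1 - (starRingEnd ℂ) z * y‖ := by
    intro y hy
    have h1 := norm_pos_iff.2 (den_ne ha hz1)
    have h2 := norm_pos_iff.2 (den_ne ha hy)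
    have h3 := one_sub_conj_mob hw ha hz1 hy
    have hmy : ‖mob w a y‖ ≤ 1 := by
      rcases hy.eq_or_lt with h | h
      · exact (mob_circle hw ha h).le
      · have : mob w a y ∈ Disc := mob_mem hw ha (by simpa [Disc] using h)
        exact (by simpa [Disc] using this : ‖mob w a y‖ < 1).le
    have h4 : 1 - R ≤ ‖1 - (starRingEnd ℂ) (mob w a z) * mob w a y‖ := by
      have h5 := norm_sub_norm_le (1 : ℂ) ((starRingEnd ℂ) (mob w a z) * mob w a y)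
      rw [norm_one, norm_mul, RCLike.norm_conj] at h5
      have h6 : ‖mob w a z‖ * ‖mob w a y‖ ≤ R * 1 :=
        mul_le_mul hm hmy (norm_nonneg _) ((norm_nonneg _).trans hm)
      linarith
    rw [h3, le_div_iff₀ (mul_pos h1 h2)] at h4
    exact h4
  have hkp := key p hp
  have hkq := key q hq
  have h1 := norm_pos_iff.2 (den_ne ha hz1)
  have h2 := norm_pos_iff.2 (den_ne ha hp)
  have h3 := norm_pos_iff.2 (den_ne ha hq)
  have hA := mob_aux1 ha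
  have hprod := mul_le_mul hkp hkq (by positivity) (by positivity)
  have hid := mob_aux3 a z
  have h4 : (1 - ‖a‖ ^ 2) * (1 - ‖z‖ ^ 2) ≤ ‖1 - (starRingEnd ℂ) a * z‖ ^ 2 := by
    have := sq_nonneg ‖z - a‖
    linarith
  rw [mob_sub hw ha hp hq, div_mul_eq_mul_div, le_div_iff₀ (mul_pos h2 h3)]
  have hB : 0 ≤ (1 - R) ^ 2 * (‖1 - (starRingEnd ℂ) a * p‖ * ‖1 - (starRingEnd ℂ) a * q‖) := by
    positivity
  have h5 := mul_le_mul_of_nonneg_left h4 hB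
  have h6 : (1 - R) ^ 2 * (‖1 - (starRingEnd ℂ) a * p‖ * ‖1 - (starRingEnd ℂ) a * q‖) *
      ((1 - ‖a‖ ^ 2) * (1 - ‖z‖ ^ 2)) ≤
      (1 - ‖a‖ ^ 2) * ‖1 - (starRingEnd ℂ) z * p‖ *
        ((1 - ‖a‖ ^ 2) * ‖1 - (starRingEnd ℂ) z * q‖) := by
    refine h5.trans (le_trans (le_of_eq ?_) hprod)
    ring
  have h7 : (1 - R) ^ 2 * (‖1 - (starRingEnd ℂ) a * p‖ * ‖1 - (starRingEnd ℂ) a * q‖) *
      (1 - ‖z‖ ^ 2) ≤ (1 - ‖a‖ ^ 2) * (‖1 - (starRingEnd ℂ) z * p‖ *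
        ‖1 - (starRingEnd ℂ) z * q‖) := by
    refine le_of_mul_le_mul_left (a := 1 - ‖a‖ ^ 2) ?_ hA
    calc _ = (1 - R) ^ 2 * (‖1 - (starRingEnd ℂ) a * p‖ * ‖1 - (starRingEnd ℂ) a * q‖) *
      ((1 - ‖a‖ ^ 2) * (1 - ‖z‖ ^ 2)) := by ring
      _ ≤ _ := h6
      _ = _ := by ring
  have h8 := mul_le_mul_of_nonneg_left h7 (norm_nonneg (p - q))
  calc _ = ‖p - q‖ * ((1 - R) ^ 2 * (‖1 - (starRingEnd ℂ) a * p‖ *
        ‖1 - (starRingEnd ℂ) a * q‖) * (1 - ‖z‖ ^ 2)) := by ring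
    _ ≤ _ := h8
    _ = _ := by ring

/-- An isometry which moves a point of the radius of `ξ` into the ball of radius `R` separates the
images of `x` and `ξ`. -/
theorem radius_sep {w a x ξ : ℂ} (hw : ‖w‖ = 1) (ha : ‖a‖ < 1) (hx : x ∈ Disc) (hξ : ‖ξ‖ = 1)
    {s : ℝ} (hs0 : 0 ≤ s) (hs1 : s < 1) {R : ℝ} (hR : R < 1) (hm : ‖mob w a (s * ξ)‖ ≤ R) :
    (1 - R) ^ 2 * (1 - ‖x‖) / 2 ≤ ‖mob w a x - mob w a ξ‖ := by
  have hx1 : ‖x‖ < 1 := by simpa [Disc] using hx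
  have hzn : ‖(s : ℂ) * ξ‖ = s := by
    rw [norm_mul, hξ, mul_one, Complex.norm_real, Real.norm_eq_abs, abs_of_nonneg hs0]
  have hz : (s : ℂ) * ξ ∈ Disc := by
    rw [Disc, mem_ball_zero_iff, hzn]
    exact hs1
  have h := mob_sep hw ha hz hx1.le hξ.le hR hm
  rw [hzn] at h
  have h1 : ‖1 - (starRingEnd ℂ) ((s : ℂ) * ξ) * ξ‖ = 1 - s := by
    have h2 : (starRingEnd ℂ) ((s : ℂ) * ξ) * ξ = (s : ℂ) := by
      rw [map_mul, Complex.conj_ofReal, mul_assoc, mob_aux5 hξ, mul_one]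
    rw [h2]
    have h3 : (1 : ℂ) - (s : ℂ) = ((1 - s : ℝ) : ℂ) := by push_cast; rfl
    rw [h3, Complex.norm_real, Real.norm_eq_abs, abs_of_nonneg (by linarith)]
  rw [h1] at h
  have h2 : ‖1 - (starRingEnd ℂ) ((s : ℂ) * ξ) * x‖ ≤ 2 := by
    have h3 := norm_sub_le (1 : ℂ) ((starRingEnd ℂ) ((s : ℂ) * ξ) * x)
    rw [norm_one, norm_mul, RCLike.norm_conj, hzn] at h3
    have h4 : s * ‖x‖ ≤ 1 * 1 := mul_le_mul hs1.le hx1.le (norm_nonneg _) zero_le_one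
    linarith
  have h3 : 1 - ‖x‖ ≤ ‖x - ξ‖ := by
    have := norm_sub_norm_le ξ x
    rw [hξ, norm_sub_rev] at this
    exact this
  have hN := norm_nonneg (mob w a x - mob w a ξ)
  have hs2 : 0 < 1 - s := by linarith
  have h4 : (1 - R) ^ 2 * (‖x - ξ‖ * (1 + s)) ≤ ‖mob w a x - mob w a ξ‖ *
      ‖1 - (starRingEnd ℂ) ((s : ℂ) * ξ) * x‖ := by
    refine le_of_mul_le_mul_right (a := 1 - s) ?_ hs2
    calc _ = (1 - R) ^ 2 * (‖x - ξ‖ * (1 - s ^ 2)) := by ring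
      _ ≤ _ := h
      _ = _ := by ring
  have h5 : (1 - R) ^ 2 * ((1 - ‖x‖) * 1) ≤ (1 - R) ^ 2 * (‖x - ξ‖ * (1 + s)) := by
    apply mul_le_mul_of_nonneg_left _ (sq_nonneg _)
    apply mul_le_mul h3 (by linarith) zero_le_one (norm_nonneg _)
  have h6 : ‖mob w a x - mob w a ξ‖ * ‖1 - (starRingEnd ℂ) ((s : ℂ) * ξ) * x‖ ≤
      ‖mob w a x - mob w a ξ‖ * 2 := mul_le_mul_of_nonneg_left h2 hN
  linarith

/-- Every point of the radius of `ξ` is at bounded distance of every minimal ray to `ξ`. -/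
theorem shadow_one {u : ℂ → ℝ} {A : ℝ} (M : Met u A) {R : ℝ} (hco : Coco u R) {r : ℝ → ℂ}
    {θ : ℝ → ℝ} (hr : GRay u r θ) {ξ : ℂ} (hξ : ‖ξ‖ = 1) (hend : Tendsto r atTop (𝓝 ξ)) :
    ∃ D, 0 ≤ D ∧ ∀ s : ℝ, 0 ≤ s → s < 1 → ∃ t, 0 ≤ t ∧ dst u (r t) (s * ξ) ≤ D := by
  have hR0 := hco.pos
  have hR := hco.lt
  have hx : r 0 ∈ Disc := hr.mem 0 le_rfl
  have hx1 : ‖r 0‖ < 1 := by simpa [Disc] using hx
  obtain ⟨δ, hδ⟩ : ∃ δ, δ = (1 - R) ^ 2 * (1 - ‖r 0‖) / 2 := ⟨_, rfl⟩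
  have hR1 : 0 < 1 - R := by linarith
  have hδ0 : 0 < δ := by
    rw [hδ]
    have : 0 < 1 - ‖r 0‖ := by linarith
    positivity
  obtain ⟨β, hβ⟩ : ∃ β, β = δ / (8 * Real.exp (2 * A)) := ⟨_, rfl⟩
  have hβ0 : 0 < β := by rw [hβ]; positivity
  have hβδ : 4 * Real.exp (2 * A) * β = δ / 2 := by
    rw [hβ]
    field_simp
    ring
  obtain ⟨R1, hR1def⟩ : ∃ R1, R1 = max R (Real.sqrt (1 - β ^ 3 / 16)) := ⟨_, rfl⟩
  have hR1lt : R1 < 1 := by
    rw [hR1def]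
    apply max_lt hR
    rw [Real.sqrt_lt' one_pos]
    have : 0 < β ^ 3 := by positivity
    linarith
  have hR10 : 0 ≤ R1 := by
    rw [hR1def]
    exact hR0.trans (le_max_left _ _)
  have hR1q : 0 < 1 - R1 ^ 2 := by nlinarith
  refine ⟨2 * Real.exp A / (1 - R1 ^ 2) * 2, by positivity, fun s hs0 hs1 => ?_⟩
  have hzn : ‖(s : ℂ) * ξ‖ = s := by
    rw [norm_mul, hξ, mul_one, Complex.norm_real, Real.norm_eq_abs, abs_of_nonneg hs0]
  have hz : (s : ℂ) * ξ ∈ Disc := by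
    rw [Disc, mem_ball_zero_iff, hzn]
    exact hs1
  obtain ⟨w, a, hs, hm⟩ := hco.move _ hz
  have hsep := radius_sep hs.hw hs.ha hx hξ hs0 hs1 hR hm
  rw [← hδ] at hsep
  have hex : ∃ t, 0 ≤ t ∧ β ^ 3 < 16 * (1 - ‖mob w a (r t)‖ ^ 2) := by
    by_contra hcon
    push Not at hcon
    have h1 : ∀ T : ℝ, 0 ≤ T → ‖mob w a (r T) - mob w a (r 0)‖ ≤ δ / 2 := by
      intro T hT
      have h2 : IsoOn u 0 T r := Decay_iso hr T
      have h3 := diam_small M hT (hs.isoOn M h2) hβ0.le (fun t ht => hcon t ht.1)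
      rw [hβδ] at h3
      exact h3
    have h2 : Tendsto (fun T => ‖mob w a (r T) - mob w a (r 0)‖) atTop
        (𝓝 ‖mob w a ξ - mob w a (r 0)‖) :=
      ((((mob_hasDerivAt hs.ha hξ.le).continuousAt.tendsto).comp hend).sub_const _).norm
    have h3 : ‖mob w a ξ - mob w a (r 0)‖ ≤ δ / 2 := by
      refine le_of_tendsto h2 ?_
      filter_upwards [eventually_ge_atTop (0 : ℝ)] with T hT using h1 T hT
    rw [norm_sub_rev] at h3
    linarith
  obtain ⟨t, ht0, ht⟩ := hex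
  refine ⟨t, ht0, ?_⟩
  have hrt := hr.mem t ht0
  have h1 : ‖mob w a (r t)‖ ≤ R1 := by
    rw [hR1def]
    refine le_trans ?_ (le_max_right _ _)
    apply Real.le_sqrt_of_sq_le
    linarith
  have h2 : ‖mob w a (s * ξ)‖ ≤ R1 := hm.trans (by rw [hR1def]; exact le_max_left _ _)
  have h3 := dst_le_norm M hR10 hR1lt h1 h2
  rw [hs.dst_eq M hrt hz] at h3
  refine h3.trans ?_
  apply mul_le_mul_of_nonneg_left _ (by positivity)
  have h4 := norm_sub_le (mob w a (s * ξ)) (mob w a (r t))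
  linarith

/-- Every point of a minimal ray to `ξ` is at bounded distance of the radius of `ξ`. -/
theorem shadow_two {u : ℂ → ℝ} {A : ℝ} (M : Met u A) {R : ℝ} (hco : Coco u R) {r : ℝ → ℂ}
    {θ : ℝ → ℝ} (hr : GRay u r θ) {ξ : ℂ} (hξ : ‖ξ‖ = 1) (hend : Tendsto r atTop (𝓝 ξ)) :
    ∃ D, 0 ≤ D ∧ ∀ t : ℝ, 0 ≤ t → ∃ s, 0 ≤ s ∧ s < 1 ∧ dst u (r t) ((s : ℝ) * ξ) ≤ D := by
  obtain ⟨D, hD, hsh⟩ := shadow_one M hco hr hξ hend
  have hx : r 0 ∈ Disc := hr.mem 0 le_rfl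
  have h0 : (0 : ℂ) ∈ Disc := by simp [Disc]
  obtain ⟨h, hh⟩ : ∃ h : ℕ → ℝ, ∀ n, h n = (1 / 2) ^ n := ⟨_, fun _ => rfl⟩
  have hhp : ∀ n, 0 < h n := fun n => by rw [hh]; positivity
  have hh1 : ∀ n, h n ≤ 1 := fun n => by
    rw [hh]
    exact pow_le_one₀ (by norm_num) (by norm_num)
  have hhs : ∀ n, h (n + 1) = h n / 2 := fun n => by
    rw [hh, hh, pow_succ]
    ring
  have hzn : ∀ n, ‖((1 - h n : ℝ) : ℂ) * ξ‖ = 1 - h n := fun n => by
    rw [norm_mul, hξ, mul_one, Complex.norm_real, Real.norm_eq_abs,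
      abs_of_nonneg (by linarith [hh1 n])]
  have hzD : ∀ n, ((1 - h n : ℝ) : ℂ) * ξ ∈ Disc := fun n => by
    rw [Disc, mem_ball_zero_iff, hzn]
    linarith [hhp n]
  have hstep : ∀ n, dst u (((1 - h n : ℝ) : ℂ) * ξ) (((1 - h (n + 1) : ℝ) : ℂ) * ξ) ≤
      2 * Real.exp A := by
    intro n
    have hp := hhp (n + 1)
    have e1 := hhs n
    have e2 := hh1 (n + 1)
    have h1 := dst_le_norm M (R := 1 - h (n + 1)) (by linarith) (by linarith)
      (p := ((1 - h n : ℝ) : ℂ) * ξ) (q := ((1 - h (n + 1) : ℝ) : ℂ) * ξ)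
      (by rw [hzn]; linarith) (by rw [hzn])
    refine h1.trans ?_
    have h2 : ‖((1 - h (n + 1) : ℝ) : ℂ) * ξ - ((1 - h n : ℝ) : ℂ) * ξ‖ = h (n + 1) := by
      rw [← sub_mul, norm_mul, hξ, mul_one, ← Complex.ofReal_sub, Complex.norm_real,
        Real.norm_eq_abs, abs_of_nonneg (by linarith)]
      linarith
    rw [h2]
    have h3 : h (n + 1) ≤ 1 - (1 - h (n + 1)) ^ 2 := by nlinarith
    rw [div_mul_eq_mul_div, div_le_iff₀ (by linarith)]
    exact mul_le_mul_of_nonneg_left h3 (by positivity)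
  choose t ht0 htd using fun n => hsh (1 - h n) (by linarith [hh1 n]) (by linarith [hhp n])
  have hE : 0 < Real.exp A := Real.exp_pos A
  -- steps
  have hts : ∀ n, |t n - t (n + 1)| ≤ 2 * D + 2 * Real.exp A := by
    intro n
    rw [← hr.iso _ (ht0 n) _ (ht0 (n + 1))]
    have h1 := dst_triangle M (hr.mem _ (ht0 n)) (hzD n) (hr.mem _ (ht0 (n + 1)))
    have h2 := dst_triangle M (hzD n) (hzD (n + 1)) (hr.mem _ (ht0 (n + 1)))
    have h3 := htd n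
    have h4 := htd (n + 1)
    rw [dst_comm] at h4
    have h5 := hstep n
    linarith
  have ht00 : t 0 ≤ D + dst u (r 0) 0 := by
    have h1 := hr.iso 0 le_rfl _ (ht0 0)
    rw [zero_sub, abs_neg, abs_of_nonneg (ht0 0)] at h1
    have h2 := dst_triangle M hx h0 (hr.mem _ (ht0 0))
    have h3 := htd 0
    have h4 : (((1 - h 0 : ℝ) : ℂ) * ξ) = 0 := by
      rw [hh]
      simp
    rw [h4, dst_comm] at h3
    linarith
  refine ⟨max (3 * D + 2 * Real.exp A) (2 * D + dst u (r 0) 0),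
    le_trans (by positivity) (le_max_left _ _), fun τ hτ => ?_⟩
  -- some index is beyond
  have hbig : ∃ n, τ ≤ t n := by
    obtain ⟨n, hn⟩ := exists_pow_lt_of_lt_one (y := (1 / 2 : ℝ))
      (x := (1 - ‖r 0‖ ^ 2) * Real.exp (-(Real.exp A * (τ + D))) / 2)
      (by have := q_pos hx; positivity) (by norm_num)
    rw [← hh] at hn
    refine ⟨n, ?_⟩
    have h1 := hr.iso 0 le_rfl _ (ht0 n)
    rw [zero_sub, abs_neg, abs_of_nonneg (ht0 n)] at h1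
    have h2 := dst_triangle M hx (hr.mem _ (ht0 n)) (hzD n)
    have h3 := htd n
    have h4 := dst_ge_log M hx (hzD n)
    have h5 : Real.log (1 - ‖((1 - h n : ℝ) : ℂ) * ξ‖ ^ 2) ≤
        Real.log (1 - ‖r 0‖ ^ 2) - Real.exp A * (τ + D) := by
      rw [hzn]
      have h6 : 1 - (1 - h n) ^ 2 ≤ (1 - ‖r 0‖ ^ 2) * Real.exp (-(Real.exp A * (τ + D))) := by
        have := hhp n
        nlinarith
      have h7 : 0 < 1 - (1 - h n) ^ 2 := by
        have := hhp n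
        have := hh1 n
        nlinarith
      have h8 := Real.log_le_log h7 h6
      rw [Real.log_mul (q_pos hx).ne' (Real.exp_pos _).ne', Real.log_exp] at h8
      linarith
    have h6 : Real.exp A * (τ + D) ≤ Real.log (1 - ‖r 0‖ ^ 2) -
        Real.log (1 - ‖((1 - h n : ℝ) : ℂ) * ξ‖ ^ 2) := by linarith
    have h7 := mul_le_mul_of_nonneg_left h6 (Real.exp_pos (-A)).le
    rw [← mul_assoc, ← Real.exp_add, neg_add_cancel, Real.exp_zero, one_mul] at h7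
    linarith
  classical
  obtain ⟨n, hn, hmin⟩ : ∃ n, τ ≤ t n ∧ ∀ m < n, t m < τ :=
    ⟨Nat.find hbig, Nat.find_spec hbig, fun m hm => not_le.1 (Nat.find_min hbig hm)⟩
  refine ⟨1 - h n, by linarith [hh1 n], by linarith [hhp n], ?_⟩
  have h1 := dst_triangle M (hr.mem _ hτ) (hr.mem _ (ht0 n)) (hzD n)
  rw [hr.iso _ hτ _ (ht0 n), abs_sub_comm, abs_of_nonneg (by linarith)] at h1
  have h2 := htd n
  rcases Nat.eq_zero_or_pos n with h3 | h3
  · rw [h3] at h1 h2 ⊢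
    refine le_trans ?_ (le_max_right _ _)
    linarith
  · obtain ⟨m, rfl⟩ : ∃ m, n = m + 1 := ⟨n - 1, by omega⟩
    refine le_trans ?_ (le_max_left _ _)
    have h4 := hmin m (Nat.lt_succ_self m)
    have h5 := (abs_le.1 (hts m)).1
    linarith

/-- Minimal rays from the same point to the same end point stay at a bounded distance. -/
theorem rays_close {u : ℂ → ℝ} {A : ℝ} (M : Met u A) {R : ℝ} (hco : Coco u R) {r r' : ℝ → ℂ}
    {θ θ' : ℝ → ℝ} (hr : GRay u r θ) (hr' : GRay u r' θ') (h0 : r 0 = r' 0) {ξ : ℂ}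
    (hξ : ‖ξ‖ = 1) (hend : Tendsto r atTop (𝓝 ξ)) (hend' : Tendsto r' atTop (𝓝 ξ)) :
    ∃ D, 0 ≤ D ∧ ∀ t : ℝ, 0 ≤ t → dst u (r t) (r' t) ≤ D := by
  obtain ⟨D, hD, h1⟩ := shadow_two M hco hr hξ hend
  obtain ⟨D', hD', h2⟩ := shadow_one M hco hr' hξ hend'
  refine ⟨2 * (D + D'), by positivity, fun t ht => ?_⟩
  obtain ⟨s, hs0, hs1, h3⟩ := h1 t ht
  obtain ⟨t', ht', h4⟩ := h2 s hs0 hs1
  have hzD : (s : ℂ) * ξ ∈ Disc := by
    rw [Disc, mem_ball_zero_iff, norm_mul, hξ, mul_one, Complex.norm_real, Real.norm_eq_abs,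
      abs_of_nonneg hs0]
    exact hs1
  have ha := hr.mem t ht
  have hb := hr'.mem t' ht'
  have hc := hr'.mem t ht
  have hx := hr.mem 0 le_rfl
  have h5 := dst_triangle M ha hzD hb
  rw [dst_comm u (r' t')] at h4
  have h6 : dst u (r t) (r' t') ≤ D + D' := by linarith
  have h7 := dst_triangle M hx ha hb
  have h8 := dst_triangle M hx hb ha
  rw [dst_comm u (r' t')] at h8
  have h9 := hr.iso 0 le_rfl t ht
  have h10 := hr'.iso 0 le_rfl t' ht'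
  rw [← h0] at h10
  rw [zero_sub, abs_neg, abs_of_nonneg ht] at h9
  rw [zero_sub, abs_neg, abs_of_nonneg ht'] at h10
  have h11 : |t' - t| ≤ D + D' := by
    rw [abs_le]
    constructor <;> linarith
  have h12 := dst_triangle M ha hb hc
  rw [hr'.iso _ ht' _ ht] at h12
  linarith

end Pool.Agent.H.MP_bfbbee_an.FL
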