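import Pool.Agent.H.MP_bfbbee_an.helper78.GoodP
import Pool.Agent.H.MP_bfbbee_an.Hold

/-!
MP_bfbbee_an (helper78). The derivatives of all orders of a first integral vanish along the limit
rays.
-/

set_option autoImplicit false

namespace Pool.Agent.H.MP_bfbbee_an.FL

open Filter Topology

/-- the domain -/
def Dom : Set (ℂ × ℝ) := Disc ×ˢ (Set.univ : Set ℝ)

theorem isOpen_Dom : IsOpen Dom := Metric.isOpen_ball.prod isOpen_univ

/-- All derivatives of `G` of order at most `m` vanish. -/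
def JetP (G : ℂ × ℝ → ℝ) (m : ℕ) (x : ℂ) (θ : ℝ) : Prop :=
  ∀ j ≤ m, iteratedFDeriv ℝ j G (x, θ) = 0

theorem JetP.mono {G : ℂ × ℝ → ℝ} {m k : ℕ} (hk : k ≤ m) {x : ℂ} {θ : ℝ} (h : JetP G m x θ) :
    JetP G k x θ := fun j hj => h j (hj.trans hk)

theorem jetP_per {G : ℂ × ℝ → ℝ} (hG : ∀ z ∈ Disc, ∀ θ : ℝ, G (z, θ + 2 * Real.pi) = G (z, θ))
    (m : ℕ) : PerP (JetP G m) := by
  intro x hx θ θ' hd hJ j hj
  obtain ⟨k, rfl⟩ := (dir_eq_iff θ θ').1 hd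
  have hper : ∀ z ∈ Disc, ∀ t : ℝ, G (z, t + 2 * Real.pi * k) = G (z, t) := by
    intro z hz t
    have hp : Function.Periodic (fun t => G (z, t)) (2 * Real.pi) := fun t => hG z hz t
    have h1 := (hp.int_mul k) t
    have h2 : t + 2 * Real.pi * k = t + k * (2 * Real.pi) := by ring
    rw [h2]
    exact h1
  have hev : (fun p : ℂ × ℝ => G (p + ((0 : ℂ), 2 * Real.pi * k))) =ᶠ[𝓝 (x, θ)] G := by
    filter_upwards [isOpen_Dom.mem_nhds (⟨hx, Set.mem_univ θ⟩ : (x, θ) ∈ Dom)] with p hp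
    have h1 : p + ((0 : ℂ), 2 * Real.pi * k) = (p.1, p.2 + 2 * Real.pi * k) := by
      ext <;> simp
    rw [h1]
    exact hper p.1 hp.1 p.2
  have h1 := (hev.iteratedFDeriv ℝ j).eq_of_nhds
  rw [iteratedFDeriv_comp_add_right] at h1
  have h2 : ((x, θ) : ℂ × ℝ) + ((0 : ℂ), 2 * Real.pi * k) = (x, θ + 2 * Real.pi * k) := by
    ext <;> simp
  rw [h2] at h1
  rw [h1]
  exact hJ j hj

theorem jet_continuousOn {G : ℂ × ℝ → ℝ} {m : ℕ} (hC : ContDiffOn ℝ m G Dom) {j : ℕ}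
    (hj : j ≤ m) : ContinuousOn (iteratedFDeriv ℝ j G) Dom := by
  have h1 : ContinuousOn (iteratedFDerivWithin ℝ j G Dom) Dom :=
    hC.continuousOn_iteratedFDerivWithin (by exact_mod_cast hj) isOpen_Dom.uniqueDiffOn
  exact h1.congr fun p hp => (iteratedFDerivWithin_of_isOpen j isOpen_Dom hp).symm

theorem jet_differentiableAt {G : ℂ × ℝ → ℝ} {m : ℕ} (hC : ContDiffOn ℝ (m + 1 : ℕ) G Dom)
    {p : ℂ × ℝ} (hp : p ∈ Dom) : DifferentiableAt ℝ (iteratedFDeriv ℝ m G) p := by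
  have h1 : ContDiffAt ℝ (m + 1 : ℕ) G p := hC.contDiffAt (isOpen_Dom.mem_nhds hp)
  have h2 : ContDiffAt ℝ 1 (iteratedFDeriv ℝ m G) p :=
    h1.iteratedFDeriv_right (m := 1) (by
      push_cast
      rw [add_comm])
  exact h2.differentiableAt one_ne_zero

/-- The jet property is closed. -/
theorem jetP_closed {G : ℂ × ℝ → ℝ} (hG : ∀ z ∈ Disc, ∀ θ : ℝ, G (z, θ + 2 * Real.pi) = G (z, θ))
    {m : ℕ} (hC : ContDiffOn ℝ m G Dom) {x : ℂ} (hx : x ∈ Disc) {θn : ℕ → ℝ} {θ : ℝ}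
    (hP : ∀ᶠ n in ul, JetP G m x (θn n))
    (hd : Tendsto (fun n => dir (θn n)) ul (𝓝 (dir θ))) : JetP G m x θ := by
  have h3 : ∀ n, ∃ θ' : ℝ, dir θ' = dir (θn n) ∧ |θ' - θ| ≤ 2 * ‖dir (θn n) - dir θ‖ :=
    fun n => exists_near (norm_dir _)
  choose θ' hθ1 hθ2 using h3
  have h4 : Tendsto (fun n => 2 * ‖dir (θn n) - dir θ‖) ul (𝓝 0) := by
    have := (tendsto_iff_norm_sub_tendsto_zero.1 hd).const_mul 2
    rwa [mul_zero] at this
  have h5 : Tendsto θ' ul (𝓝 θ) := by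
    rw [tendsto_iff_norm_sub_tendsto_zero]
    exact squeeze_zero (fun n => norm_nonneg _) hθ2 h4
  intro j hj
  have h6 : ContinuousAt (iteratedFDeriv ℝ j G) (x, θ) :=
    (jet_continuousOn hC hj).continuousAt (isOpen_Dom.mem_nhds ⟨hx, Set.mem_univ _⟩)
  have h7 : Tendsto (fun n => iteratedFDeriv ℝ j G (x, θ' n)) ul
      (𝓝 (iteratedFDeriv ℝ j G (x, θ))) :=
    h6.tendsto.comp ((tendsto_const_nhds (x := x)).prodMk_nhds h5)
  have h8 : Tendsto (fun n => iteratedFDeriv ℝ j G (x, θ' n)) ul (𝓝 0) := by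
    refine tendsto_const_nhds.congr' ?_
    filter_upwards [hP] with n hn
    exact (jetP_per hG m x hx _ _ (hθ1 n).symm hn j hj).symm
  exact tendsto_nhds_unique h7 h8

/-- One step: the next derivative vanishes at interior points. -/
theorem jet_step_interior {u : ℂ → ℝ} {A : ℝ} (M : Met u A) {G : ℂ × ℝ → ℝ}
    (hG : ∀ z ∈ Disc, ∀ θ : ℝ, G (z, θ + 2 * Real.pi) = G (z, θ)) {m : ℕ}
    (hC : ContDiffOn ℝ (m + 1 : ℕ) G Dom) {ξ : ℂ} {b : ℂ → ℝ} {bn : ℕ → ℂ → ℝ} {ξn : ℕ → ℂ}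
    (hgb : GoodP u (JetP G m) b ξ) (hgood : ∀ n, GoodP u (JetP G m) (bn n) (ξn n))
    (hne : ∀ n, ‖ξn n‖ = 1 ∧ ξn n ≠ ξ)
    (hlim : ∀ y ∈ Disc, Tendsto (fun n => bn n y) ul (𝓝 (b y)))
    {x : ℂ} {r : ℝ → ℂ} {θ : ℝ → ℝ} (hr : Cal u b x r) (hg : GRay u r θ) {s : ℝ}
    (hs : 0 < s) : iteratedFDeriv ℝ (m + 1) G (r s, θ s) = 0 := by
  have hper := jetP_per hG m
  have hrs : r s ∈ Disc := hr.mem s hs.le
  have hd : DifferentiableAt ℝ (iteratedFDeriv ℝ m G) (r s, θ s) :=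
    jet_differentiableAt hC ⟨hrs, Set.mem_univ _⟩
  have hkey : fderiv ℝ (iteratedFDeriv ℝ m G) (r s, θ s) = 0 := by
    refine ContinuousLinearMap.ext fun w => ContinuousMultilinearMap.ext fun v => ?_
    have hev : ∀ v : Fin m → ℂ × ℝ, fderiv ℝ (fun p => iteratedFDeriv ℝ m G p v) (r s, θ s) =
        (ContinuousMultilinearMap.apply ℝ (fun _ : Fin m => ℂ × ℝ) ℝ v).comp
          (fderiv ℝ (iteratedFDeriv ℝ m G) (r s, θ s)) := by
      intro v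
      exact ((ContinuousMultilinearMap.apply ℝ (fun _ : Fin m => ℂ × ℝ) ℝ v).hasFDerivAt.comp
        (r s, θ s) hd.hasFDerivAt).fderiv
    have hdv : DifferentiableAt ℝ (fun p => iteratedFDeriv ℝ m G p v) (r s, θ s) :=
      ((ContinuousMultilinearMap.apply ℝ (fun _ : Fin m => ℂ × ℝ) ℝ v).hasFDerivAt.comp
        (r s, θ s) hd.hasFDerivAt).differentiableAt
    have hzero : fderiv ℝ (fun p => iteratedFDeriv ℝ m G p v) (r s, θ s) = 0 := by
      refine fderiv_zero_of (c := 0) hdv ?_ ?_ ?_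
      · rw [(goodP_all M hper hgb hr hg).2 s hs m le_rfl]
        rfl
      · intro ε hε
        obtain ⟨ω', h1, h2, h3⟩ := fibreP M hper hgb hgood hne hlim hr hg hs hε
        refine ⟨ω', h1, h2, ?_⟩
        rw [h3 m le_rfl]
        rfl
      · obtain ⟨C, ε, hCpos, hε, h3⟩ := cal_dir_lip M hgb.1 hr hg hs
        have hlt : ‖r s‖ < 1 := by simpa [Disc] using hrs
        refine ⟨2 * C, min ε ((1 - ‖r s‖) / 2), lt_min hε (by linarith), fun y hy => ?_⟩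
        have hy1 : ‖y - r s‖ ≤ ε := hy.trans (min_le_left _ _)
        have hy2 : ‖y - r s‖ ≤ (1 - ‖r s‖) / 2 := hy.trans (min_le_right _ _)
        have hyD : y ∈ Disc := by
          have : ‖y‖ ≤ ‖y - r s‖ + ‖r s‖ := by
            have := norm_add_le (y - r s) (r s)
            rwa [sub_add_cancel] at this
          rw [Metric.mem_ball, dist_zero_right]
          linarith
        obtain ⟨r', θ', hr', hg', -, hv'⟩ := hgb.2 y hyD
        obtain ⟨ω', hω, hω2⟩ := exists_near (θ := θ s) (norm_dir (θ' 0))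
        refine ⟨ω', ?_, ?_⟩
        · have := h3 y r' θ' hy1 hr' hg'
          linarith
        · rw [hper y hyD _ _ hω.symm hv' m le_rfl]
          rfl
    have h1 := hev v
    rw [hzero] at h1
    have h2 := congrArg (fun L : ℂ × ℝ →L[ℝ] ℝ => L w) h1
    simpa using h2.symm
  have h1 : ‖iteratedFDeriv ℝ (m + 1) G (r s, θ s)‖ = 0 := by
    rw [← norm_fderiv_iteratedFDeriv, hkey]
    exact norm_zero (E := (ℂ × ℝ) →L[ℝ] ContinuousMultilinearMap ℝ (fun _ : Fin m => ℂ × ℝ) ℝ)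
  exact norm_eq_zero.1 h1

/-- One step: if for all end points there is a function which is good for the derivatives of order
at most `m`, then also for `m + 1`. -/
theorem jet_step {u : ℂ → ℝ} {A : ℝ} (M : Met u A) {G : ℂ × ℝ → ℝ}
    (hG : ∀ z ∈ Disc, ∀ θ : ℝ, G (z, θ + 2 * Real.pi) = G (z, θ)) {m : ℕ}
    (hC : ContDiffOn ℝ (m + 1 : ℕ) G Dom)
    (hc : ∀ ξ : ℂ, ‖ξ‖ = 1 → ∃ b, GoodP u (JetP G m) b ξ) {ξ : ℂ} (hξ : ‖ξ‖ = 1) :
    ∃ b, GoodP u (JetP G (m + 1)) b ξ := by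
  have hCm : ContDiffOn ℝ m G Dom := hC.of_le (by exact_mod_cast Nat.le_succ m)
  obtain ⟨b, bn, ξn, hb, hgood, hne, hξn, hlim⟩ := exists_limit_P M hc hξ
  have hgb : GoodP u (JetP G m) b ξ := goodP_limit M (Pn := fun _ => JetP G m)
    (fun x hx θn θ h1 h2 => jetP_closed hG hCm hx h1 h2)
    (Eventually.of_forall fun n => hgood n) hb hlim hξn
  refine ⟨b, hb, fun x hx => ?_⟩
  obtain ⟨r, θ, hr, hg, hend, hval⟩ := hgb.2 x hx
  refine ⟨r, θ, hr, hg, hend, fun j hj => ?_⟩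
  rcases Nat.lt_or_ge j (m + 1) with h | h
  · exact hval j (Nat.lt_succ_iff.1 h)
  have hjm : j = m + 1 := le_antisymm hj h
  rw [hjm]
  have h0 : (0 : ℝ) ∈ Set.Icc (0 : ℝ) 1 := ⟨le_rfl, zero_le_one⟩
  obtain ⟨hD0, hr0, hθ0⟩ := hg.geo 1 one_pos 0 h0
  have h4 : Tendsto (fun s => (r s, θ s)) (𝓝[Set.Icc 0 1] 0) (𝓝 (r 0, θ 0)) :=
    hr0.continuousWithinAt.tendsto.prodMk_nhds hθ0.continuousWithinAt.tendsto
  have h5 : Tendsto (fun s => iteratedFDeriv ℝ (m + 1) G (r s, θ s)) (𝓝[Set.Icc 0 1] 0)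
      (𝓝 (iteratedFDeriv ℝ (m + 1) G (r 0, θ 0))) :=
    ((jet_continuousOn hC le_rfl (r 0, θ 0) ⟨hD0, Set.mem_univ _⟩).continuousAt
      (isOpen_Dom.mem_nhds ⟨hD0, Set.mem_univ _⟩)).tendsto.comp h4
  have h6 : Tendsto (fun s => iteratedFDeriv ℝ (m + 1) G (r s, θ s)) (𝓝[Set.Ioo 0 1] 0)
      (𝓝 (iteratedFDeriv ℝ (m + 1) G (r 0, θ 0))) :=
    h5.mono_left (nhdsWithin_mono _ Set.Ioo_subset_Icc_self)
  have h7 : Tendsto (fun s => iteratedFDeriv ℝ (m + 1) G (r s, θ s)) (𝓝[Set.Ioo 0 1] 0)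
      (𝓝 0) := by
    refine tendsto_const_nhds.congr' ?_
    filter_upwards [self_mem_nhdsWithin] with s hs
    exact (jet_step_interior M hG hC hgb hgood hne hlim hr hg hs.1).symm
  have hnb : (𝓝[Set.Ioo (0 : ℝ) 1] 0).NeBot := by
    rw [nhdsWithin_Ioo_eq_nhdsGT one_pos]
    infer_instance
  have h8 := tendsto_nhds_unique h6 h7
  rw [hr.start] at h8
  exact h8

/-- The derivatives of all existing orders. -/
def JetAll (G : ℂ × ℝ → ℝ) (x : ℂ) (θ : ℝ) : Prop :=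
  ∀ m : ℕ, ContDiffOn ℝ m G Dom → JetP G m x θ

/-- For every end point there is a function which is good for all derivatives. -/
theorem exists_jetAll {u : ℂ → ℝ} {A : ℝ} (M : Met u A) {G : ℂ × ℝ → ℝ}
    (hG : ∀ z ∈ Disc, ∀ θ : ℝ, G (z, θ + 2 * Real.pi) = G (z, θ))
    (hc : ∀ ξ : ℂ, ‖ξ‖ = 1 → ∃ b, GoodP u (JetP G 0) b ξ) {ξ : ℂ} (hξ : ‖ξ‖ = 1) :
    ∃ b, GoodP u (JetAll G) b ξ := by
  have h1 : ∀ m : ℕ, ContDiffOn ℝ m G Dom → ∀ ξ : ℂ, ‖ξ‖ = 1 → ∃ b, GoodP u (JetP G m) b ξ := by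
    intro m
    induction m with
    | zero => exact fun _ => hc
    | succ m ih =>
      intro hC ξ hξ
      exact jet_step M hG hC (ih (hC.of_le (by exact_mod_cast Nat.le_succ m))) hξ
  have h2 : ∀ n : ℕ, ∀ ξ : ℂ, ‖ξ‖ = 1 → ∃ b, GoodP u (fun x θ => ∀ m ≤ n,
      ContDiffOn ℝ m G Dom → JetP G m x θ) b ξ := by
    intro n
    induction n with
    | zero =>
      intro ξ hξ
      obtain ⟨b, hb⟩ := hc ξ hξ
      refine ⟨b, goodP_mono hb fun x _ θ h m hm _ => ?_⟩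
      exact h.mono hm
    | succ n ih =>
      intro ξ hξ
      by_cases hC : ContDiffOn ℝ (n + 1 : ℕ) G Dom
      · obtain ⟨b, hb⟩ := h1 (n + 1) hC ξ hξ
        exact ⟨b, goodP_mono hb fun x _ θ h m hm _ => h.mono hm⟩
      · obtain ⟨b, hb⟩ := ih ξ hξ
        refine ⟨b, goodP_mono hb fun x _ θ h m hm hm2 => ?_⟩
        rcases Nat.lt_or_ge m (n + 1) with h3 | h3
        · exact h m (Nat.lt_succ_iff.1 h3) hm2
        · exact absurd (le_antisymm hm h3 ▸ hm2) hC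
  choose b0 hb0 using fun n : ℕ => h2 n ξ hξ
  have hgood : ∀ n : ℕ, GoodP u (fun x θ => ∀ m ≤ n, ContDiffOn ℝ m G Dom → JetP G m x θ)
      (fun z => b0 n z + (-(b0 n 0))) ξ := fun n => goodP_add_const (hb0 n) _
  obtain ⟨b, hb, hlim⟩ := lip_limit M (bn := fun n z => b0 n z + (-(b0 n 0)))
    (Eventually.of_forall fun n => ⟨(hgood n).1, by ring⟩)
  refine ⟨b, goodP_limit M
    (Pn := fun n x θ => ∀ m ≤ n, ContDiffOn ℝ m G Dom → JetP G m x θ) ?_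
    (Eventually.of_forall hgood) hb hlim tendsto_const_nhds⟩
  intro x hx θn θ h3 h4 m hm
  refine jetP_closed hG hm hx ?_ h4
  have h5 : ∀ᶠ n : ℕ in ul, m ≤ n := (eventually_ge_atTop m).filter_mono ul_le
  filter_upwards [h3, h5] with n hn hmn
  exact hn m hmn hm

end Pool.Agent.H.MP_bfbbee_an.FL
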