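import Pool.Agent.H.MP_bfbbee_an.helper78.UniqV
import Pool.Agent.H.MP_bfbbee_an.Top

/-!
MP_bfbbee_an (helper78). A first integral is almost constant on all long minimal arcs.
-/

set_option autoImplicit false

namespace Pool.Agent.H.MP_bfbbee_an.FL

open Filter Topology

/-- A first integral is close to its value on the good rays on all long minimal arcs. -/
theorem long_arcs_val {u : ℂ → ℝ} {A : ℝ} (M : Met u A) {F : ℂ × ℝ → ℝ}
    (hF : FirstIntegral u F) {R : ℝ} (hco : CocoF u F R) {c : ℝ}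
    (hc : ∀ ξ : ℂ, ‖ξ‖ = 1 → ∃ b, Good u F b c ξ) {δ : ℝ} (hδ : 0 < δ) :
    ∃ L > 0, ∀ (σ : ℝ → ℂ) (θ : ℝ → ℝ), IsoOn u 0 L σ →
      IsGeodesicOn u 0 L σ θ → |F (σ 0, θ 0) - c| < δ := by
  by_contra hcon
  push Not at hcon
  have hpos : ∀ n : ℕ, (0 : ℝ) < (n : ℝ) + 1 := fun n => by positivity
  choose σ θ hσ hθ hv using fun n : ℕ => hcon ((n : ℝ) + 1) (hpos n)
  have hR := hco.lt
  have h0 : ∀ n : ℕ, (0 : ℝ) ∈ Set.Icc (0 : ℝ) ((n : ℝ) + 1) := fun n => ⟨le_rfl, (hpos n).le⟩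
  choose w a hs hFs hm using fun n : ℕ => hco.move (σ n 0) ((hσ n).1 0 (h0 n))
  choose θ' hθ' using fun n : ℕ => iso_geodesic M (hpos n) ((hs n).isoOn M (hσ n))
  have hval : ∀ n : ℕ, F (mob (w n) (a n) (σ n 0), θ' n 0) = F (σ n 0, θ n 0) := fun n =>
    hFs n _ ((hσ n).1 0 (h0 n)) _ _ ((hs n).dir_eq (hpos n) (hθ n) (hθ' n) (h0 n))
  obtain ⟨y, hyR, hyl⟩ := exists_ul_lim (isCompact_closedBall (0 : ℂ) R)
    (f := fun n => mob (w n) (a n) (σ n 0))
    (Eventually.of_forall fun n => by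
      rw [mem_closedBall_zero_iff]
      exact hm n)
  have hy : y ∈ Disc := by
    rw [mem_closedBall_zero_iff] at hyR
    rw [Disc, mem_ball_zero_iff]
    linarith
  have hL : Tendsto (fun n : ℕ => (n : ℝ) + 1) ul atTop :=
    (tendsto_atTop_add_const_right atTop (1 : ℝ) tendsto_natCast_atTop_atTop).mono_left ul_le
  obtain ⟨ρ, ϑ, hρ, hρ0, -, hρd⟩ := seg_limit M hy hyl
    (σn := fun n t => mob (w n) (a n) (σ n t)) (θn := θ') hL
    (Eventually.of_forall fun n => ⟨(hs n).isoOn M (hσ n), hθ' n, rfl⟩)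
  have h1 : Tendsto (fun n => F (mob (w n) (a n) (σ n 0), θ' n 0)) ul (𝓝 (F (y, ϑ 0))) :=
    F_tendsto hF hy (Eventually.of_forall fun n =>
      mob_mem (hs n).hw (hs n).ha ((hσ n).1 0 (h0 n))) hyl hρd
  have h2 : F (y, ϑ 0) = c := by
    have := value_all M hF hco hc hρ
    rwa [hρ0] at this
  rw [h2] at h1
  have h3 : Tendsto (fun n => |F (mob (w n) (a n) (σ n 0), θ' n 0) - c|) ul (𝓝 0) := by
    have := (h1.sub_const c).abs
    rwa [sub_self, abs_zero] at this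
  have h4 : δ ≤ 0 := by
    refine ge_of_tendsto h3 (Eventually.of_forall fun n => ?_)
    rw [hval n]
    exact hv n
  linarith

/-- A first integral is close to one value on all long minimal arcs. -/
theorem long_arcs {u : ℂ → ℝ} {A : ℝ} (M : Met u A) {F : ℂ × ℝ → ℝ}
    (hF : FirstIntegral u F) {R : ℝ} (hco : CocoF u F R) :
    ∃ c : ℝ, ∀ δ > 0, ∃ L > 0, ∀ (σ : ℝ → ℂ) (θ : ℝ → ℝ), IsoOn u 0 L σ →
      IsGeodesicOn u 0 L σ θ → |F (σ 0, θ 0) - c| < δ := by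
  obtain ⟨c, hc⟩ := exists_value M hF hco
  exact ⟨c, fun _ hδ => long_arcs_val M hF hco hc hδ⟩

end Pool.Agent.H.MP_bfbbee_an.FL
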