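import Pool.Agent.H.MP_bfbbee_an.Decay

/-!
MP_bfbbee_an (helper78). A minimal curve close to the boundary circle has a small Euclidean
diameter.
-/

set_option autoImplicit false

namespace Pool.Agent.H.MP_bfbbee_an.FL

open Filter Topology

/-- One half: the starting point is the point of the curve which is nearest to the centre. -/
theorem diam_half {u : ℂ → ℝ} {A : ℝ} (M : Met u A) {T : ℝ} (hT0 : 0 ≤ T)
    {σ : ℝ → ℂ} (h : IsoOn u 0 T σ) {β : ℝ} (hβ : 0 ≤ β)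
    (hq : 16 * (1 - ‖σ 0‖ ^ 2) ≤ β ^ 3) (hmin : ∀ t ∈ Set.Icc 0 T, ‖σ 0‖ ≤ ‖σ t‖) :
    ‖σ T - σ 0‖ ≤ 2 * Real.exp (2 * A) * β := by
  rcases hT0.eq_or_lt with rfl | hT
  · rw [sub_self, norm_zero]
    positivity
  obtain ⟨θ, hθ⟩ := iso_geodesic M hT h
  have h00 : (0 : ℝ) ∈ Set.Icc 0 T := ⟨le_rfl, hT0⟩
  have hσ0 := h.1 0 h00
  have hq0 := q_pos hσ0
  have hR : ‖σ 0‖ < 1 := by simpa [Disc] using hσ0
  obtain ⟨κ, hκ⟩ : ∃ κ, κ = Real.exp (-A) := ⟨_, rfl⟩
  have hκ0 : 0 < κ := by rw [hκ]; exact Real.exp_pos _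
  -- the bound
  have hbd : ∀ x ∈ Set.Icc 0 T, 1 - ‖σ x‖ ^ 2 ≤ β * Real.exp (-(κ * x / 3)) := by
    intro x hx
    have h1 : 1 - ‖σ x‖ ^ 2 ≤ 1 - ‖σ 0‖ ^ 2 := by
      have := pow_le_pow_left₀ (norm_nonneg _) (hmin x hx) 2
      linarith
    have h2 := seg_q_le M (norm_nonneg _) hR h le_rfl hx
    have h3 := q_pos (h.1 x hx)
    rw [← hκ] at h2
    have he : Real.exp (-(κ * x)) = Real.exp (-(κ * x / 3)) ^ 3 := by
      rw [← Real.exp_nat_mul]
      congr 1
      push_cast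
      ring
    have hE := Real.exp_pos (-(κ * x))
    have h4 : (1 - ‖σ x‖ ^ 2) ^ 3 ≤ (β * Real.exp (-(κ * x / 3))) ^ 3 := by
      calc (1 - ‖σ x‖ ^ 2) ^ 3 = (1 - ‖σ x‖ ^ 2) ^ 2 * (1 - ‖σ x‖ ^ 2) := by ring
        _ ≤ (1 - ‖σ 0‖ ^ 2) ^ 2 * (16 / (1 - ‖σ 0‖ ^ 2) * Real.exp (-(κ * x))) := by
            apply mul_le_mul (pow_le_pow_left₀ h3.le h1 2) h2 h3.le (by positivity)
        _ = 16 * (1 - ‖σ 0‖ ^ 2) * Real.exp (-(κ * x)) := by
            field_simp
        _ ≤ β ^ 3 * Real.exp (-(κ * x)) := mul_le_mul_of_nonneg_right hq hE.le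
        _ = (β * Real.exp (-(κ * x / 3))) ^ 3 := by rw [mul_pow, he]
    exact le_of_pow_le_pow_left₀ (by norm_num) (by positivity) h4
  set K : ℝ := 3 / 2 * Real.exp (2 * A) * β with hK
  have hK0 : 0 ≤ K := by positivity
  have key := image_norm_le_of_norm_deriv_right_le_deriv_boundary
    (f := fun x => σ x - σ 0) (f' := fun x => dir (θ x) / (rho u (σ x) : ℂ)) (a := 0) (b := T)
    (B := fun x => K * (1 - Real.exp (-(κ * x / 3))))
    (B' := fun x => K * (κ / 3 * Real.exp (-(κ * x / 3))))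
    (by
      intro x hx
      exact ((hθ x hx).2.1.continuousWithinAt).sub continuousWithinAt_const)
    (by
      intro x hx
      have hx' : x ∈ Set.Icc 0 T := ⟨hx.1, hx.2.le⟩
      have h1 := ((hθ x hx').2.1).sub_const (σ 0)
      have hmem : Set.Icc 0 T ∈ 𝓝[Set.Ici x] x := by
        refine Filter.mem_of_superset (Icc_mem_nhdsGE hx.2) ?_
        exact Set.Icc_subset_Icc hx.1 le_rfl
      exact (h1.mono_of_mem_nhdsWithin hmem))
    (by simp)
    (by
      intro x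
      have h1 : HasDerivAt (fun x => -(κ * x / 3)) (-(κ * 1 / 3)) x :=
        (((hasDerivAt_id x).const_mul κ).div_const 3).neg
      have h2 := ((h1.exp).const_sub 1).const_mul K
      refine h2.congr_deriv ?_
      ring)
    (by
      intro x hx1
      have hx' : x ∈ Set.Icc 0 T := ⟨hx1.1, hx1.2.le⟩
      have hD := h.1 x hx'
      have hr := rho_pos u hD
      have hlow := rho_lower M hD
      have hqp := q_pos hD
      have hn : ‖dir (θ x) / (rho u (σ x) : ℂ)‖ = 1 / rho u (σ x) := by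
        rw [norm_div, norm_dir, Complex.norm_real, Real.norm_eq_abs, abs_of_pos hr]
      have hAA : Real.exp A * Real.exp (-A) = 1 := by
        rw [← Real.exp_add, add_neg_cancel, Real.exp_zero]
      have hEA : Real.exp (2 * A) * Real.exp (-A) = Real.exp A := by
        rw [← Real.exp_add]
        congr 1
        ring
      have h1 : 1 / rho u (σ x) ≤ Real.exp A * (1 - ‖σ x‖ ^ 2) / 2 := by
        rw [div_le_iff₀ hr]
        have h2 : Real.exp A * (1 - ‖σ x‖ ^ 2) / 2 * (2 * Real.exp (-A) / (1 - ‖σ x‖ ^ 2)) = 1 := by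
          field_simp
          exact hAA
        calc (1 : ℝ) = Real.exp A * (1 - ‖σ x‖ ^ 2) / 2 *
              (2 * Real.exp (-A) / (1 - ‖σ x‖ ^ 2)) := h2.symm
          _ ≤ Real.exp A * (1 - ‖σ x‖ ^ 2) / 2 * rho u (σ x) :=
              mul_le_mul_of_nonneg_left hlow (by positivity)
      have h3 : Real.exp A * (1 - ‖σ x‖ ^ 2) / 2 ≤
          Real.exp A * (β * Real.exp (-(κ * x / 3))) / 2 := by
        have := mul_le_mul_of_nonneg_left (hbd x hx') (Real.exp_pos A).le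
        linarith
      have h4 : Real.exp A * (β * Real.exp (-(κ * x / 3))) / 2 =
          K * (κ / 3 * Real.exp (-(κ * x / 3))) := by
        rw [hK, hκ, ← hEA]
        ring
      rw [hn, ← h4]
      exact h1.trans h3)
    (x := T) ⟨hT0, le_rfl⟩
  have hfin : K * (1 - Real.exp (-(κ * T / 3))) ≤ 2 * Real.exp (2 * A) * β := by
    have h1 := Real.exp_pos (-(κ * T / 3))
    have h2 : K * (1 - Real.exp (-(κ * T / 3))) ≤ K * 1 :=
      mul_le_mul_of_nonneg_left (by linarith) hK0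
    have h3 : K ≤ 2 * Real.exp (2 * A) * β := by
      rw [hK]
      have : 0 ≤ Real.exp (2 * A) * β := by positivity
      linarith
    linarith
  exact key.trans hfin

theorem isoOn_shift {u : ℂ → ℝ} {T s t : ℝ} {σ : ℝ → ℂ} (h : IsoOn u 0 T σ) (hs : 0 ≤ s)
    (ht : s + t ≤ T) : IsoOn u 0 t (fun x => σ (s + x)) := by
  refine ⟨fun x hx => h.1 _ ⟨by linarith [hx.1], by linarith [hx.2]⟩, fun x hx y hy => ?_⟩
  rw [h.2 _ ⟨by linarith [hx.1], by linarith [hx.2]⟩ _ ⟨by linarith [hy.1], by linarith [hy.2]⟩]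
  congr 1
  ring

theorem isoOn_reverse {u : ℂ → ℝ} {T s : ℝ} {σ : ℝ → ℂ} (h : IsoOn u 0 T σ)
    (hs : s ≤ T) : IsoOn u 0 s (fun x => σ (s - x)) := by
  refine ⟨fun x hx => h.1 _ ⟨by linarith [hx.2], by linarith [hx.1]⟩, fun x hx y hy => ?_⟩
  rw [h.2 _ ⟨by linarith [hx.2], by linarith [hx.1]⟩ _ ⟨by linarith [hy.2], by linarith [hy.1]⟩]
  rw [show s - x - (s - y) = -(x - y) by ring, abs_neg]

theorem isoOn_continuousOn {u : ℂ → ℝ} {A : ℝ} (M : Met u A) {T : ℝ} {σ : ℝ → ℂ}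
    (h : IsoOn u 0 T σ) : ContinuousOn σ (Set.Icc 0 T) := by
  have hc : 0 < 2 * Real.exp (-A) := by positivity
  refine LipschitzOnWith.continuousOn (K := Real.toNNReal (1 / (2 * Real.exp (-A))))
    (LipschitzOnWith.of_dist_le_mul ?_)
  intro s hs t ht
  rw [Real.coe_toNNReal _ (by positivity), dist_comm, dist_eq_norm, Real.dist_eq, ← h.2 s hs t ht,
    div_mul_eq_mul_div, one_mul, le_div_iff₀ hc, mul_comm]
  exact dst_ge_norm M (h.1 s hs) (h.1 t ht)

/-- A minimal curve outside a large ball has a small Euclidean diameter. -/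
theorem diam_small {u : ℂ → ℝ} {A : ℝ} (M : Met u A) {T : ℝ} (hT0 : 0 ≤ T)
    {σ : ℝ → ℂ} (h : IsoOn u 0 T σ) {β : ℝ} (hβ : 0 ≤ β)
    (hq : ∀ t ∈ Set.Icc 0 T, 16 * (1 - ‖σ t‖ ^ 2) ≤ β ^ 3) :
    ‖σ T - σ 0‖ ≤ 4 * Real.exp (2 * A) * β := by
  have hne : (Set.Icc 0 T).Nonempty := ⟨0, ⟨le_rfl, hT0⟩⟩
  obtain ⟨s, hs, hmin⟩ := isCompact_Icc.exists_isMinOn hne
    (f := fun t => ‖σ t‖) ((isoOn_continuousOn M h).norm)
  have hmin' : ∀ t ∈ Set.Icc 0 T, ‖σ s‖ ≤ ‖σ t‖ := fun t ht => hmin ht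
  have h1 := diam_half M (T := T - s) (by linarith [hs.2])
    (isoOn_shift (s := s) (t := T - s) h hs.1 (by linarith)) hβ
    (by simpa using hq s hs)
    (by
      intro t ht
      simpa using hmin' (s + t) ⟨by linarith [hs.1, ht.1], by linarith [ht.2]⟩)
  have h2 := diam_half M (T := s) hs.1 (isoOn_reverse (s := s) h hs.2) hβ
    (by simpa using hq s hs)
    (by
      intro t ht
      simpa using hmin' (s - t) ⟨by linarith [ht.2], by linarith [ht.1, hs.2]⟩)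
  simp only [add_zero, add_sub_cancel, sub_zero, sub_self] at h1 h2
  have h3 : ‖σ T - σ 0‖ ≤ ‖σ T - σ s‖ + ‖σ 0 - σ s‖ := by
    have := norm_sub_le (σ T - σ s) (σ 0 - σ s)
    rwa [sub_sub_sub_cancel_right] at this
  linarith

end Pool.Agent.H.MP_bfbbee_an.FL
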