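import Pool.Agent.H.MP_bfbbee_an.helper78.Jet

/-!
MP_bfbbee_an (helper78). From every point to every boundary point there is a minimal ray along
which `F - c` vanishes with all its derivatives.
-/

set_option autoImplicit false

namespace Pool.Agent.H.MP_bfbbee_an.FL

open Filter Topology

/-- `F = c` and all existing derivatives of `F` vanish. -/
def FlatP (F : ℂ × ℝ → ℝ) (c : ℝ) (x : ℂ) (θ : ℝ) : Prop :=
  F (x, θ) = c ∧ ∀ m : ℕ, 1 ≤ m → ContDiffOn ℝ m F (Disc ×ˢ (Set.univ : Set ℝ)) →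
    iteratedFDeriv ℝ m F (x, θ) = 0

theorem jetAll_flat {F : ℂ × ℝ → ℝ} (hF : ContinuousOn F Dom) {c : ℝ} {x : ℂ} (hx : x ∈ Disc)
    {θ : ℝ} (h : JetAll (fun p => F p - c) x θ) : FlatP F c x θ := by
  have hmem : ((x, θ) : ℂ × ℝ) ∈ Dom := ⟨hx, Set.mem_univ _⟩
  constructor
  · have h0 : ContDiffOn ℝ (0 : ℕ) (fun p => F p - c) Dom := by
      have h1 : ContDiffOn ℝ 0 (fun p => F p - c) Dom :=
        contDiffOn_zero.2 (hF.sub continuousOn_const)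
      exact_mod_cast h1
    have h2 := h 0 h0 0 le_rfl
    have h3 := congrArg (fun L => L (fun _ : Fin 0 => ((0, 0) : ℂ × ℝ))) h2
    simp only [iteratedFDeriv_zero_apply] at h3
    have h4 : F (x, θ) - c = 0 := h3
    linarith
  · intro m hm hC
    have hC1 : ContDiffOn ℝ m (fun p => F p - c) Dom := ContDiffOn.sub hC contDiffOn_const
    have h2 := h m hC1 m le_rfl
    have h3 : ContDiffAt ℝ m F (x, θ) := hC.contDiffAt (isOpen_Dom.mem_nhds hmem)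
    have h4 : (fun p => F p - c) = F - (fun _ => c) := rfl
    rw [h4, iteratedFDeriv_sub_apply h3 contDiffAt_const,
      iteratedFDeriv_const_of_ne (by omega)] at h2
    simpa using h2

theorem jetAll_per {G : ℂ × ℝ → ℝ}
    (hG : ∀ z ∈ Disc, ∀ θ : ℝ, G (z, θ + 2 * Real.pi) = G (z, θ)) : PerP (JetAll G) :=
  fun x hx θ θ' hd h m hm => jetP_per hG m x hx θ θ' hd (h m hm)

/-- The main result on flatness. -/
theorem exists_flat {u : ℂ → ℝ} {A : ℝ} (M : Met u A) {F : ℂ × ℝ → ℝ}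
    (hF : FirstIntegral u F) {c : ℝ} (hc : ∀ ξ : ℂ, ‖ξ‖ = 1 → ∃ b, Good u F b c ξ)
    {ξ : ℂ} (hξ : ‖ξ‖ = 1) {x : ℂ} (hx : x ∈ Disc) :
    ∃ r θ, GRay u r θ ∧ r 0 = x ∧ Tendsto r atTop (𝓝 ξ) ∧
      ∀ t : ℝ, 0 ≤ t → FlatP F c (r t) (θ t) := by
  have hG : ∀ z ∈ Disc, ∀ θ : ℝ,
      (fun p => F p - c) (z, θ + 2 * Real.pi) = (fun p => F p - c) (z, θ) := by
    intro z hz θ
    show F (z, θ + 2 * Real.pi) - c = F (z, θ) - c
    rw [hF.per z hz θ]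
  have h0 : ∀ ξ : ℂ, ‖ξ‖ = 1 → ∃ b, GoodP u (JetP (fun p => F p - c) 0) b ξ := by
    intro η hη
    obtain ⟨b, hb, hr⟩ := hc η hη
    refine ⟨b, hb, fun x hx => ?_⟩
    obtain ⟨r, θ, h1, h2, h3, h4⟩ := hr x hx
    refine ⟨r, θ, h1, h2, h3, fun j hj => ?_⟩
    obtain rfl : j = 0 := Nat.le_zero.1 hj
    ext v
    rw [iteratedFDeriv_zero_apply]
    show F (x, θ 0) - c = 0
    rw [h4, sub_self]
  obtain ⟨b, hb⟩ := exists_jetAll M hG h0 hξ
  obtain ⟨r, θ, h1, h2, h3, h4⟩ := hb.2 x hx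
  refine ⟨r, θ, h2, h1.start, h3, fun t ht => ?_⟩
  rcases ht.eq_or_lt with rfl | ht'
  · rw [h1.start]
    exact jetAll_flat hF.cont hx h4
  · exact jetAll_flat hF.cont (h2.mem t ht)
      ((goodP_all M (jetAll_per hG) hb h1 h2).2 t ht')

end Pool.Agent.H.MP_bfbbee_an.FL
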