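import Pool.Agent.H.MP_bfbbee_an.helper78.Shad
import Pool.Agent.H.MP_bfbbee_an.Val

/-!
MP_bfbbee_an (helper78). A first integral has the same value on all minimal rays.
-/

set_option autoImplicit false

namespace Pool.Agent.H.MP_bfbbee_an.FL

open Filter Topology

/-- `good_sym` with the explicit function. -/
theorem good_sym_exp {u : ℂ → ℝ} {A : ℝ} (M : Met u A) {F : ℂ × ℝ → ℝ}
    {b : ℂ → ℝ} {c : ℝ} {ξ : ℂ} (hξ : ‖ξ‖ = 1) (hG : Good u F b c ξ) {w a : ℂ} (h : Sym u w a)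
    (hFs : FSym F w a) :
    Good u F (fun z => b (mob ((starRingEnd ℂ) w) (-(w * a)) z)) c (mob w a ξ) := by
  have hs := h.symm
  have hnorm : ∀ z ∈ Disc, ‖z‖ ≤ 1 := by
    intro z hz
    have hz' : ‖z‖ < 1 := by simpa [Disc] using hz
    exact hz'.le
  refine ⟨fun x hx y hy => ?_, fun x hx => ?_⟩
  · have h1 := hG.1 _ (mob_mem hs.hw hs.ha hx) _ (mob_mem hs.hw hs.ha hy)
    rw [hs.dst_eq M hx hy] at h1
    exact h1
  · have hy := mob_mem hs.hw hs.ha hx
    have hgy : mob w a (mob ((starRingEnd ℂ) w) (-(w * a)) x) = x :=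
      mob_inv' h.hw h.ha (hnorm x hx)
    obtain ⟨r, θ, hcal, hg, ht, hF⟩ := hG.2 _ hy
    obtain ⟨θ', hg', hd⟩ := h.ray M hg
    refine ⟨fun t => mob w a (r t), θ', ⟨?_, ?_, ?_, ?_⟩, hg', ?_, ?_⟩
    · rw [hcal.start, hgy]
    · intro t h0
      exact mob_mem h.hw h.ha (hcal.mem t h0)
    · intro s h0 t h1
      rw [h.dst_eq M (hcal.mem s h0) (hcal.mem t h1)]
      exact hcal.one s h0 t h1
    · intro t h0
      rw [mob_inv h.hw h.ha (hnorm _ (hcal.mem t h0))]
      exact hcal.cal t h0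
    · exact ((mob_hasDerivAt h.ha hξ.le).continuousAt.tendsto).comp ht
    · have h1 := hFs (r 0) (hcal.mem 0 le_rfl) (θ 0) (θ' 0) (hd 0 le_rfl)
      rw [hcal.start, hgy] at h1
      rw [h1]
      exact hF

/-- Along a `b`-calibrated ray which stays at bounded distance of a `b'`-calibrated ray, the
difference of `b'` and `b` converges. -/
theorem diff_conv {u : ℂ → ℝ} {b b' : ℂ → ℝ} (hb' : Lip1 u b') {x : ℂ}
    {r r' : ℝ → ℂ} {θ : ℝ → ℝ} (hr : Cal u b x r) (hg : GRay u r θ) (hr' : Cal u b' x r')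
    {D : ℝ} (hD : ∀ t, 0 ≤ t → dst u (r t) (r' t) ≤ D) :
    ∃ ℓ, Tendsto (fun n : ℕ => b' (r n) + n) atTop (𝓝 ℓ) := by
  have hmono : Monotone (fun n : ℕ => b' (r n) + n) := by
    refine monotone_nat_of_le_succ fun n => ?_
    have h1 := hb' _ (hr.mem n (Nat.cast_nonneg n)) _ (hr.mem ((n + 1 : ℕ) : ℝ) (Nat.cast_nonneg _))
    rw [hg.iso _ (Nat.cast_nonneg n) _ (Nat.cast_nonneg _)] at h1
    have h2 : |(n : ℝ) - ((n + 1 : ℕ) : ℝ)| = 1 := by
      push_cast
      rw [sub_add_cancel_left, abs_neg, abs_one]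
    rw [h2] at h1
    push_cast at h1 ⊢
    linarith
  have hbdd : BddAbove (Set.range (fun n : ℕ => b' (r n) + n)) := by
    refine ⟨b' x + D, ?_⟩
    rintro _ ⟨n, rfl⟩
    have hn : (0 : ℝ) ≤ n := Nat.cast_nonneg n
    have h1 := hb' _ (hr.mem n hn) _ (hr'.mem n hn)
    have h2 := hD n hn
    have h3 := hr'.cal n hn
    show b' (r n) + n ≤ b' x + D
    linarith
  exact ⟨_, tendsto_atTop_ciSup hmono hbdd⟩

/-- The value of a first integral is determined by the end point. -/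
theorem good_value_unique {u : ℂ → ℝ} {A : ℝ} (M : Met u A) {F : ℂ × ℝ → ℝ}
    (hF : FirstIntegral u F) {R : ℝ} (hco : CocoF u F R) {b b' : ℂ → ℝ} {c c' : ℝ} {ξ : ℂ}
    (hξ : ‖ξ‖ = 1) (hG : Good u F b c ξ) (hG' : Good u F b' c' ξ) : c = c' := by
  have h0 : (0 : ℂ) ∈ Disc := by simp [Disc]
  have hcoC : Coco u R := ⟨hco.pos, hco.lt, fun z hz => by
    obtain ⟨w, a, h1, -, h2⟩ := hco.move z hz
    exact ⟨w, a, h1, h2⟩⟩
  have hR0 := hco.pos
  have hR := hco.lt
  obtain ⟨r, θ, hr, hg, hend, -⟩ := hG.2 0 h0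
  obtain ⟨r', θ', hr', hg', hend', -⟩ := hG'.2 0 h0
  obtain ⟨D, -, hD⟩ := rays_close M hcoC hg hg' (hr.start.trans hr'.start.symm) hξ hend hend'
  have hn0 : ∀ n : ℕ, (0 : ℝ) ≤ n := fun n => Nat.cast_nonneg n
  -- isometries
  choose w a hs hFs hm using fun n : ℕ => hco.move (r n) (hr.mem n (hn0 n))
  obtain ⟨bn, hbn⟩ : ∃ bn : ℕ → ℂ → ℝ, ∀ n z, bn n z =
      b (mob ((starRingEnd ℂ) (w n)) (-(w n * a n)) z) +
        (-(b (mob ((starRingEnd ℂ) (w n)) (-(w n * a n)) 0))) := ⟨_, fun _ _ => rfl⟩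
  obtain ⟨bn', hbn'⟩ : ∃ bn' : ℕ → ℂ → ℝ, ∀ n z, bn' n z =
      b' (mob ((starRingEnd ℂ) (w n)) (-(w n * a n)) z) +
        (-(b' (mob ((starRingEnd ℂ) (w n)) (-(w n * a n)) 0))) := ⟨_, fun _ _ => rfl⟩
  have hgood : ∀ n, Good u F (bn n) c (mob (w n) (a n) ξ) := by
    intro n
    have h1 := good_add_const (good_sym_exp M hξ hG (hs n) (hFs n))
      (-(b (mob ((starRingEnd ℂ) (w n)) (-(w n * a n)) 0)))
    have h2 : bn n = fun z => b (mob ((starRingEnd ℂ) (w n)) (-(w n * a n)) z) +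
        (-(b (mob ((starRingEnd ℂ) (w n)) (-(w n * a n)) 0))) := funext fun z => hbn n z
    rw [h2]
    exact h1
  have hgood' : ∀ n, Good u F (bn' n) c' (mob (w n) (a n) ξ) := by
    intro n
    have h1 := good_add_const (good_sym_exp M hξ hG' (hs n) (hFs n))
      (-(b' (mob ((starRingEnd ℂ) (w n)) (-(w n * a n)) 0)))
    have h2 : bn' n = fun z => b' (mob ((starRingEnd ℂ) (w n)) (-(w n * a n)) z) +
        (-(b' (mob ((starRingEnd ℂ) (w n)) (-(w n * a n)) 0))) := funext fun z => hbn' n z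
    rw [h2]
    exact h1
  -- limits of the functions
  obtain ⟨B, hB, hBl⟩ := lip_limit M (bn := bn)
    (Eventually.of_forall fun n => ⟨(hgood n).1, by rw [hbn]; ring⟩)
  obtain ⟨B', hB', hBl'⟩ := lip_limit M (bn := bn')
    (Eventually.of_forall fun n => ⟨(hgood' n).1, by rw [hbn']; ring⟩)
  -- limit of the end points
  obtain ⟨η, hη, hηl⟩ := exists_ul_lim (isCompact_sphere (0 : ℂ) 1)
    (f := fun n => mob (w n) (a n) ξ)
    (Eventually.of_forall fun n => by
      rw [mem_sphere_zero_iff_norm]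
      exact mob_circle (hs n).hw (hs n).ha hξ)
  -- limit of the starting points
  obtain ⟨y, hyR, hyl⟩ := exists_ul_lim (isCompact_closedBall (0 : ℂ) R)
    (f := fun n => mob (w n) (a n) (r n))
    (Eventually.of_forall fun n => by
      rw [mem_closedBall_zero_iff]
      exact hm n)
  have hy : y ∈ Disc := by
    rw [mem_closedBall_zero_iff] at hyR
    rw [Disc, mem_ball_zero_iff]
    linarith
  have hgoodB : Good u F B c η := good_limit M hF (cn := fun _ => c)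
    (Eventually.of_forall hgood) hB hBl tendsto_const_nhds hηl
  have hgoodB' : Good u F B' c' η := good_limit M hF (cn := fun _ => c')
    (Eventually.of_forall hgood') hB' hBl' tendsto_const_nhds hηl
  -- the rays
  have hnorm : ∀ z ∈ Disc, ‖z‖ ≤ 1 := by
    intro z hz
    have hz' : ‖z‖ < 1 := by simpa [Disc] using hz
    exact hz'.le
  have hinv : ∀ n : ℕ, ∀ z ∈ Disc, mob ((starRingEnd ℂ) (w n)) (-(w n * a n))
      (mob (w n) (a n) z) = z := fun n z hz => mob_inv (hs n).hw (hs n).ha (hnorm z hz)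
  have hray : ∀ n : ℕ, ∃ θn : ℝ → ℝ,
      GRay u (fun t => mob (w n) (a n) (r (n + t))) θn := by
    intro n
    obtain ⟨θn, h1, -⟩ := (hs n).ray M (hg.shift (hn0 n))
    exact ⟨θn, h1⟩
  choose θn hθn using hray
  have hcal : ∀ n : ℕ, Cal u (bn n) (mob (w n) (a n) (r n))
      (fun t => mob (w n) (a n) (r (n + t))) := by
    intro n
    have h1 := hr.shift (hn0 n)
    refine ⟨by simp, fun t ht => mob_mem (hs n).hw (hs n).ha (h1.mem t ht), ?_, ?_⟩
    · intro s hs' t ht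
      rw [(hs n).dst_eq M (h1.mem s hs') (h1.mem t ht)]
      exact h1.one s hs' t ht
    · intro t ht
      rw [hbn, hbn, hinv n _ (h1.mem t ht), hinv n _ (hr.mem n (hn0 n)), h1.cal t ht]
      ring
  obtain ⟨ρ, ϑ, hρ, hρg, hρt, -⟩ := cal_limit M (bn := bn) (b := B)
    (Eventually.of_forall fun n => (hgood n).1) hBl hy hyl
    (rn := fun n t => mob (w n) (a n) (r (n + t))) (θn := θn)
    (Eventually.of_forall fun n => ⟨hcal n, hθn n⟩)
  -- the limit ray is also calibrated by the other limit function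
  obtain ⟨ℓ, hℓ⟩ := diff_conv hG'.1 hr hg hr' hD
  have hconv : ∀ k : ℕ, Tendsto (fun n : ℕ => b' (r (n + k)) - b' (r n)) atTop (𝓝 (-(k : ℝ))) := by
    intro k
    have h1 : Tendsto (fun n : ℕ => b' (r ((n + k : ℕ) : ℝ)) + ((n + k : ℕ) : ℝ)) atTop (𝓝 ℓ) :=
      hℓ.comp (tendsto_add_atTop_nat k)
    have h2 := (h1.sub hℓ).sub_const (k : ℝ)
    rw [sub_self, zero_sub] at h2
    refine h2.congr fun n => ?_
    push_cast
    ring
  have hcalk : ∀ k : ℕ, B' (ρ k) = B' y - k := by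
    intro k
    have hk : (0 : ℝ) ≤ k := Nat.cast_nonneg k
    have h1 : Tendsto (fun n => bn' n (mob (w n) (a n) (r (n + k)))) ul (𝓝 (B' (ρ k))) :=
      GoodL_move M (Eventually.of_forall fun n => (hgood' n).1) hBl' (hρ.mem k hk)
        (hρt k hk) (Eventually.of_forall fun n => mob_mem (hs n).hw (hs n).ha
          (hr.mem _ (add_nonneg (hn0 n) hk)))
    have h2 : Tendsto (fun n => bn' n (mob (w n) (a n) (r n))) ul (𝓝 (B' y)) :=
      GoodL_move M (Eventually.of_forall fun n => (hgood' n).1) hBl' hy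
        hyl (Eventually.of_forall fun n => mob_mem (hs n).hw (hs n).ha (hr.mem _ (hn0 n)))
    have h3 : Tendsto (fun n => bn' n (mob (w n) (a n) (r (n + k))) -
        bn' n (mob (w n) (a n) (r n))) ul (𝓝 (-(k : ℝ))) := by
      refine ((hconv k).mono_left ul_le).congr fun n => ?_
      rw [hbn', hbn', hinv n _ (hr.mem _ (add_nonneg (hn0 n) hk)), hinv n _ (hr.mem n (hn0 n))]
      ring
    have h4 := tendsto_nhds_unique (h1.sub h2) h3
    linarith
  have hcal' : Cal u B' y ρ := by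
    refine ⟨hρ.start, hρ.mem, hρ.one, fun t ht => ?_⟩
    obtain ⟨k, hk⟩ := exists_nat_ge t
    have hk0 : (0 : ℝ) ≤ k := Nat.cast_nonneg k
    have h1 := hB' _ hy _ (hρ.mem t ht)
    have h2 := hB' _ (hρ.mem t ht) _ (hρ.mem k hk0)
    have h3 := hρ.one t ht k hk0
    have h4 := hρ.one 0 le_rfl t ht
    rw [hρ.start, zero_sub, abs_neg, abs_of_nonneg ht] at h4
    rw [abs_sub_comm, abs_of_nonneg (by linarith)] at h3
    rw [hcalk k] at h2
    linarith
  have hv := (good_all M hF hgoodB hρ hρg).2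
  have hv' := (good_all M hF hgoodB' hcal' hρg).2
  rw [hv] at hv'
  exact hv'

/-- A first integral has the same value on all minimal rays. -/
theorem value_all {u : ℂ → ℝ} {A : ℝ} (M : Met u A) {F : ℂ × ℝ → ℝ}
    (hF : FirstIntegral u F) {R : ℝ} (hco : CocoF u F R) {c : ℝ}
    (hc : ∀ ξ : ℂ, ‖ξ‖ = 1 → ∃ b, Good u F b c ξ) {r : ℝ → ℂ} {θ : ℝ → ℝ} (hr : GRay u r θ) :
    F (r 0, θ 0) = c := by
  obtain ⟨ξ, hξ, hend⟩ := ray_end M hr
  obtain ⟨b, hb⟩ := good_of_ray M hF hco hr hend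
  obtain ⟨b', hb'⟩ := hc ξ hξ
  exact good_value_unique M hF hco hξ hb hb'

end Pool.Agent.H.MP_bfbbee_an.FL
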