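import Pool.Agent.H.MP_bfbbee_an.helper78.JetInv
import Pool.Agent.H.MP_bfbbee_an.helper78.Flat
import Pool.Agent.H.MP_bfbbee_an.helper78.UniqV
import Pool.Agent.H.MP_bfbbee_an.Top

/-!
MP_bfbbee_an (helper78). A first integral is flat at all limit vectors of minimal rays.
-/

set_option autoImplicit false

namespace Pool.Agent.H.MP_bfbbee_an.FL

open Filter Topology

theorem conv_real {u : ℂ → ℝ} {b : ℂ → ℝ} (hb : Lip1 u b) {r r' : ℝ → ℂ}
    {θ : ℝ → ℝ} (hg : GRay u r θ) (hr' : Cal u b (r 0) r')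
    {D : ℝ} (hD : ∀ t, 0 ≤ t → dst u (r t) (r' t) ≤ D) :
    ∃ ℓ, Tendsto (fun t : ℝ => b (r t) + t) atTop (𝓝 ℓ) := by
  have hmono : Monotone (fun t : ℝ => b (r (max t 0)) + max t 0) := by
    intro s t hst
    have h1 : max s 0 ≤ max t 0 := max_le_max hst le_rfl
    have hs0 : (0 : ℝ) ≤ max s 0 := le_max_right _ _
    have ht0 : (0 : ℝ) ≤ max t 0 := le_max_right _ _
    have h2 := hb _ (hg.mem _ hs0) _ (hg.mem _ ht0)
    rw [hg.iso _ hs0 _ ht0, abs_sub_comm, abs_of_nonneg (by linarith)] at h2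
    show b (r (max s 0)) + max s 0 ≤ b (r (max t 0)) + max t 0
    linarith
  have hbdd : BddAbove (Set.range (fun t : ℝ => b (r (max t 0)) + max t 0)) := by
    refine ⟨b (r 0) + D, ?_⟩
    rintro _ ⟨t, rfl⟩
    have ht0 : (0 : ℝ) ≤ max t 0 := le_max_right _ _
    have h1 := hb _ (hg.mem _ ht0) _ (hr'.mem _ ht0)
    have h2 := hD _ ht0
    have h3 := hr'.cal _ ht0
    show b (r (max t 0)) + max t 0 ≤ b (r 0) + D
    linarith
  refine ⟨_, (tendsto_atTop_ciSup hmono hbdd).congr' ?_⟩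
  filter_upwards [eventually_ge_atTop 0] with t ht
  rw [max_eq_left ht]

/-- All limit vectors of a minimal ray (under isometries preserving `F`) are flat. -/
theorem flat_limits {u : ℂ → ℝ} {A : ℝ} (M : Met u A) {F : ℂ × ℝ → ℝ}
    (hF : FirstIntegral u F) {R : ℝ} (hco : Coco u R) {c : ℝ}
    (hc : ∀ ξ : ℂ, ‖ξ‖ = 1 → ∃ b, Good u F b c ξ) {r : ℝ → ℂ} {θ : ℝ → ℝ} (hg : GRay u r θ)
    {w a : ℕ → ℂ} (hs : ∀ n, Sym u (w n) (a n)) (hFs : ∀ n, FSym F (w n) (a n)) {t : ℕ → ℝ}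
    (ht : Tendsto t atTop atTop) {x : ℂ} (hx : x ∈ Disc) {ω : ℝ}
    (hxl : Tendsto (fun n => mob (w n) (a n) (r (t n))) atTop (𝓝 x))
    (hdl : Tendsto (fun n => dir (θ (t n)) * (mobd (w n) (a n) (r (t n)) /
      (‖mobd (w n) (a n) (r (t n))‖ : ℂ))) atTop (𝓝 (dir ω))) : FlatP F c x ω := by
  obtain ⟨G, hGdef⟩ : ∃ G : ℂ × ℝ → ℝ, G = fun p => F p - c := ⟨_, rfl⟩
  have hGper : ∀ z ∈ Disc, ∀ θ : ℝ, G (z, θ + 2 * Real.pi) = G (z, θ) := by
    intro z hz θ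
    rw [hGdef]
    show F (z, θ + 2 * Real.pi) - c = F (z, θ) - c
    rw [hF.per z hz θ]
  have hGs : ∀ n, FSym G (w n) (a n) := by
    intro n z hz θ θ' hd
    rw [hGdef]
    show F (mob (w n) (a n) z, θ') - c = F (z, θ) - c
    rw [hFs n z hz θ θ' hd]
  have h00 : ∀ ξ : ℂ, ‖ξ‖ = 1 → ∃ b, GoodP u (JetP G 0) b ξ := by
    intro η hη
    obtain ⟨b, hb, hr⟩ := hc η hη
    refine ⟨b, hb, fun x hx => ?_⟩
    obtain ⟨r, θ, h1, h2, h3, h4⟩ := hr x hx
    refine ⟨r, θ, h1, h2, h3, fun j hj => ?_⟩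
    obtain rfl : j = 0 := Nat.le_zero.1 hj
    ext v
    rw [iteratedFDeriv_zero_apply, hGdef]
    show F (x, θ 0) - c = 0
    rw [h4, sub_self]
  obtain ⟨ξ, hξ, hend⟩ := ray_end M hg
  obtain ⟨b, hb⟩ := exists_jetAll M hGper h00 hξ
  have hr0 : r 0 ∈ Disc := hg.mem 0 le_rfl
  obtain ⟨r', θ', hr', hg', hend', -⟩ := hb.2 (r 0) hr0
  obtain ⟨D, -, hD⟩ := rays_close M hco hg hg' hr'.start.symm hξ hend hend'
  obtain ⟨ℓ, hℓ⟩ := conv_real hb.1 hg hr' hD
  obtain ⟨bn, hbn⟩ : ∃ bn : ℕ → ℂ → ℝ, ∀ n z, bn n z =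
      b (mob ((starRingEnd ℂ) (w n)) (-(w n * a n)) z) +
        (-(b (mob ((starRingEnd ℂ) (w n)) (-(w n * a n)) 0))) := ⟨_, fun _ _ => rfl⟩
  have hgood : ∀ n, GoodP u (JetAll G) (bn n) (mob (w n) (a n) ξ) := by
    intro n
    have h1 := goodP_add_const (goodP_sym M hξ hb (hs n)
      (fun z hz θ θ' hd hJ => jetAll_sym (hs n) (hGs n) hz hd hJ))
      (-(b (mob ((starRingEnd ℂ) (w n)) (-(w n * a n)) 0)))
    have h2 : bn n = fun z => b (mob ((starRingEnd ℂ) (w n)) (-(w n * a n)) z) +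
        (-(b (mob ((starRingEnd ℂ) (w n)) (-(w n * a n)) 0))) := funext fun z => hbn n z
    rw [h2]
    exact h1
  obtain ⟨B, hB, hBl⟩ := lip_limit M (bn := bn)
    (Eventually.of_forall fun n => ⟨(hgood n).1, by rw [hbn]; ring⟩)
  obtain ⟨η, hη, hηl⟩ := exists_ul_lim (isCompact_sphere (0 : ℂ) 1)
    (f := fun n => mob (w n) (a n) ξ)
    (Eventually.of_forall fun n => by
      rw [mem_sphere_zero_iff_norm]
      exact mob_circle (hs n).hw (hs n).ha hξ)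
  have hgoodB : GoodP u (JetAll G) B η := goodP_limit M (Pn := fun _ => JetAll G)
    (fun x hx θn θ h1 h2 m hm => jetP_closed hGper hm hx (h1.mono fun n hn => hn m hm) h2)
    (Eventually.of_forall hgood) hB hBl hηl
  have hnorm : ∀ z ∈ Disc, ‖z‖ ≤ 1 := by
    intro z hz
    have hz' : ‖z‖ < 1 := by simpa [Disc] using hz
    exact hz'.le
  have hinv : ∀ n : ℕ, ∀ z ∈ Disc, mob ((starRingEnd ℂ) (w n)) (-(w n * a n))
      (mob (w n) (a n) z) = z := fun n z hz => mob_inv (hs n).hw (hs n).ha (hnorm z hz)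
  have htul : Tendsto t ul atTop := ht.mono_left ul_le
  have ht0 : ∀ᶠ n in ul, 0 ≤ t n := htul.eventually_ge_atTop 0
  have hray : ∀ n : ℕ, ∃ θn : ℝ → ℝ, 0 ≤ t n →
      GRay u (fun s => mob (w n) (a n) (r (t n + s))) θn ∧
        dir (θn 0) = dir (θ (t n)) * (mobd (w n) (a n) (r (t n)) /
          (‖mobd (w n) (a n) (r (t n))‖ : ℂ)) := by
    intro n
    by_cases hn : 0 ≤ t n
    · obtain ⟨θn, h1, h2⟩ := (hs n).ray M (hg.shift hn)
      refine ⟨θn, fun _ => ⟨h1, ?_⟩⟩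
      have h3 := h2 0 le_rfl
      simp only [add_zero] at h3
      exact h3
    · exact ⟨fun _ => 0, fun h => absurd h hn⟩
  choose θn hθn using hray
  obtain ⟨ρ, ϑ, hρ, hρ0, hρt, hρd⟩ := ray_limit M hx (hxl.mono_left ul_le)
    (rn := fun n s => mob (w n) (a n) (r (t n + s))) (θn := θn)
    (by
      filter_upwards [ht0] with n hn
      exact ⟨(hθn n hn).1, by simp⟩)
  have hϑω : dir (ϑ 0) = dir ω := by
    refine tendsto_nhds_unique hρd ((hdl.mono_left ul_le).congr' ?_)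
    filter_upwards [ht0] with n hn
    exact (hθn n hn).2.symm
  -- the limit ray is calibrated
  have hcalB : ∀ s, 0 ≤ s → B (ρ s) = B x - s := by
    intro s hs0
    have h1 : Tendsto (fun n => bn n (mob (w n) (a n) (r (t n + s)))) ul (𝓝 (B (ρ s))) :=
      GoodL_move M (Eventually.of_forall fun n => (hgood n).1) hBl (hρ.mem s hs0)
        (hρt s hs0) (by
          filter_upwards [ht0] with n hn
          exact mob_mem (hs n).hw (hs n).ha (hg.mem _ (add_nonneg hn hs0)))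
    have h2 : Tendsto (fun n => bn n (mob (w n) (a n) (r (t n)))) ul (𝓝 (B x)) :=
      GoodL_move M (Eventually.of_forall fun n => (hgood n).1) hBl hx
        (hxl.mono_left ul_le) (by
          filter_upwards [ht0] with n hn
          exact mob_mem (hs n).hw (hs n).ha (hg.mem _ hn))
    have h3 : Tendsto (fun n => (b (r (t n + s)) + (t n + s)) - (b (r (t n)) + t n) - s) ul
        (𝓝 (ℓ - ℓ - s)) := by
      have h4 : Tendsto (fun n => t n + s) ul atTop := tendsto_atTop_add_const_right ul s htul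
      exact ((hℓ.comp h4).sub (hℓ.comp htul)).sub_const s
    rw [sub_self, zero_sub] at h3
    have h5 : Tendsto (fun n => bn n (mob (w n) (a n) (r (t n + s))) -
        bn n (mob (w n) (a n) (r (t n)))) ul (𝓝 (-s)) := by
      refine h3.congr' ?_
      filter_upwards [ht0] with n hn
      rw [hbn, hbn, hinv n _ (hg.mem _ (add_nonneg hn hs0)), hinv n _ (hg.mem _ hn)]
      ring
    have h6 := tendsto_nhds_unique (h1.sub h2) h5
    linarith
  have hcal : Cal u B x ρ := ⟨hρ0, hρ.mem, fun s hs' t' ht' => (hρ.iso s hs' t' ht').le, hcalB⟩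
  have hall := (goodP_all M (jetAll_per hGper) hgoodB hcal hρ).2
  -- passage to the starting point
  have hstart : JetAll G x (ϑ 0) := by
    intro m hC j hj
    have h0 : (0 : ℝ) ∈ Set.Icc (0 : ℝ) 1 := ⟨le_rfl, zero_le_one⟩
    obtain ⟨hD0, hr0', hθ0⟩ := hρ.geo 1 one_pos 0 h0
    have h4 : Tendsto (fun s => (ρ s, ϑ s)) (𝓝[Set.Icc 0 1] 0) (𝓝 (ρ 0, ϑ 0)) :=
      hr0'.continuousWithinAt.tendsto.prodMk_nhds hθ0.continuousWithinAt.tendsto
    have h5 : Tendsto (fun s => iteratedFDeriv ℝ j G (ρ s, ϑ s)) (𝓝[Set.Icc 0 1] 0)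
        (𝓝 (iteratedFDeriv ℝ j G (ρ 0, ϑ 0))) :=
      ((jet_continuousOn hC hj (ρ 0, ϑ 0) ⟨hD0, Set.mem_univ _⟩).continuousAt
        (isOpen_Dom.mem_nhds ⟨hD0, Set.mem_univ _⟩)).tendsto.comp h4
    have h6 : Tendsto (fun s => iteratedFDeriv ℝ j G (ρ s, ϑ s)) (𝓝[Set.Ioo 0 1] 0)
        (𝓝 (iteratedFDeriv ℝ j G (ρ 0, ϑ 0))) :=
      h5.mono_left (nhdsWithin_mono _ Set.Ioo_subset_Icc_self)
    have h7 : Tendsto (fun s => iteratedFDeriv ℝ j G (ρ s, ϑ s)) (𝓝[Set.Ioo 0 1] 0)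
        (𝓝 0) := by
      refine tendsto_const_nhds.congr' ?_
      filter_upwards [self_mem_nhdsWithin] with s hs'
      exact (hall s hs'.1 m hC j hj).symm
    have hnb : (𝓝[Set.Ioo (0 : ℝ) 1] 0).NeBot := by
      rw [nhdsWithin_Ioo_eq_nhdsGT one_pos]
      infer_instance
    have h8 := tendsto_nhds_unique h6 h7
    rw [hρ0] at h8
    exact h8
  have hω : JetAll G x ω := jetAll_per hGper x hx _ _ hϑω hstart
  rw [hGdef] at hω
  exact jetAll_flat hF.cont hx hω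

end Pool.Agent.H.MP_bfbbee_an.FL
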