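import Pool.Agent.H.MP_bfbbee_an.helper78.UniqV
import Pool.Agent.H.MP_bfbbee_an.helper78.Flat
import Pool.Agent.H.MP_bfbbee_an.Top

/-!
MP_bfbbee_an (helper78). The main theorem on flat minimal rays.
-/

set_option autoImplicit false

namespace Pool.Agent.H.MP_bfbbee_an.FL

open Filter Topology

/-- `(r, θ)` is a minimal ray along which `F = c` and all derivatives of `F` of orders
`1, ..., m` vanish, for every `m` such that `F` is `C^m`. -/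
def FlatRay (u : ℂ → ℝ) (F : ℂ × ℝ → ℝ) (c : ℝ) (r : ℝ → ℂ) (θ : ℝ → ℝ) : Prop :=
  GRay u r θ ∧ ∀ t : ℝ, 0 ≤ t → F (r t, θ t) = c ∧
    ∀ m : ℕ, 1 ≤ m → ContDiffOn ℝ m F (Disc ×ˢ Set.univ) → iteratedFDeriv ℝ m F (r t, θ t) = 0

theorem flat_rays {u : ℂ → ℝ} (hu : ContDiffOn ℝ 2 u Disc) {R : ℝ} (hco : Coco u R) :
    ∃ α : NNReal, 0 < α ∧ ∀ F : ℂ × ℝ → ℝ, FirstIntegral u F → (∃ R', CocoF u F R') →
      ∃ c : ℝ, ∀ x ∈ Disc,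
        (∀ ξ : ℂ, ‖ξ‖ = 1 → ∃ r θ, FlatRay u F c r θ ∧ r 0 = x ∧ Tendsto r atTop (𝓝 ξ)) ∧
        (α : ENNReal) ≤ dimH {ω : ℝ | ∃ r θ, FlatRay u F c r θ ∧ r 0 = x ∧ θ 0 = ω} := by
  obtain ⟨A, M⟩ := exists_met hu hco
  obtain ⟨α, hα, h⟩ := end_holder M hco
  refine ⟨⟨α, hα.le⟩, by exact_mod_cast hα, fun F hF hR' => ?_⟩
  obtain ⟨R', hR'⟩ := hR'
  obtain ⟨c, hc⟩ := exists_value M hF hR'
  refine ⟨c, fun x hx => ?_⟩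
  have key : ∀ ξ : ℂ, ‖ξ‖ = 1 → ∃ r θ, FlatRay u F c r θ ∧ r 0 = x ∧ Tendsto r atTop (𝓝 ξ) := by
    intro ξ hξ
    obtain ⟨r, θ, h1, h2, h3, h4⟩ := exists_flat M hF hc hξ hx
    exact ⟨r, θ, ⟨h1, h4⟩, h2, h3⟩
  refine ⟨key, ?_⟩
  obtain ⟨C, hC, hH⟩ := h x hx
  refine dimH_ge (α := ⟨α, hα.le⟩) M hx (by exact_mod_cast hα) hC hH fun ξ hξ => ?_
  obtain ⟨r, θ, h1, h2, h3⟩ := key ξ hξ
  exact ⟨r, θ, h1.1, h2, h3, r, θ, h1, h2, rfl⟩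

end Pool.Agent.H.MP_bfbbee_an.FL
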