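import Pool.Agent.H.MP_bfbbee_an.Crit

/-!
MP_bfbbee_an (helper78). Calibrated rays whose initial vectors have a closed property.
-/

set_option autoImplicit false

namespace Pool.Agent.H.MP_bfbbee_an.FL

open Filter Topology

/-- `b` is a 1-Lipschitz function such that from every point there starts a `b`-calibrated ray
which ends at `ξ` and whose initial vector has the property `P`. -/
def GoodP (u : ℂ → ℝ) (P : ℂ → ℝ → Prop) (b : ℂ → ℝ) (ξ : ℂ) : Prop :=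
  Lip1 u b ∧ ∀ x ∈ Disc, ∃ r θ, Cal u b x r ∧ GRay u r θ ∧ Tendsto r atTop (𝓝 ξ) ∧ P x (θ 0)

/-- The property depends on the direction only. -/
def PerP (P : ℂ → ℝ → Prop) : Prop :=
  ∀ x ∈ Disc, ∀ θ θ' : ℝ, dir θ = dir θ' → P x θ → P x θ'

theorem goodP_mono {u : ℂ → ℝ} {P Q : ℂ → ℝ → Prop} {b : ℂ → ℝ} {ξ : ℂ} (hG : GoodP u P b ξ)
    (h : ∀ x ∈ Disc, ∀ θ, P x θ → Q x θ) : GoodP u Q b ξ := by
  refine ⟨hG.1, fun x hx => ?_⟩
  obtain ⟨r, θ, h1, h2, h3, h4⟩ := hG.2 x hx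
  exact ⟨r, θ, h1, h2, h3, h x hx _ h4⟩

theorem goodP_limit {u : ℂ → ℝ} {A : ℝ} (M : Met u A) {Pn : ℕ → ℂ → ℝ → Prop}
    {P : ℂ → ℝ → Prop}
    (hP : ∀ x ∈ Disc, ∀ (θn : ℕ → ℝ) (θ : ℝ), (∀ᶠ n in ul, Pn n x (θn n)) →
      Tendsto (fun n => dir (θn n)) ul (𝓝 (dir θ)) → P x θ)
    {bn : ℕ → ℂ → ℝ} {ξn : ℕ → ℂ} {b : ℂ → ℝ} {ξ : ℂ}
    (hG : ∀ᶠ n in ul, GoodP u (Pn n) (bn n) (ξn n)) (hb : Lip1 u b)
    (hlim : ∀ y ∈ Disc, Tendsto (fun n => bn n y) ul (𝓝 (b y)))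
    (hξ : Tendsto ξn ul (𝓝 ξ)) : GoodP u P b ξ := by
  refine ⟨hb, fun x hx => ?_⟩
  have hex : ∀ n, ∃ rθ : (ℝ → ℂ) × (ℝ → ℝ), GoodP u (Pn n) (bn n) (ξn n) →
      Cal u (bn n) x rθ.1 ∧ GRay u rθ.1 rθ.2 ∧ Tendsto rθ.1 atTop (𝓝 (ξn n)) ∧
        Pn n x (rθ.2 0) := by
    intro n
    by_cases hn : GoodP u (Pn n) (bn n) (ξn n)
    · obtain ⟨r, θ, h⟩ := hn.2 x hx
      exact ⟨(r, θ), fun _ => h⟩
    · exact ⟨(fun _ => 0, fun _ => 0), fun h => absurd h hn⟩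
  choose rθ hrθ using hex
  have hconst : Tendsto (fun _ : ℕ => x) ul (𝓝 x) := tendsto_const_nhds
  obtain ⟨r, θ, hcal, hg, hrt, hdir⟩ := cal_limit M (bn := bn) (b := b)
    (by filter_upwards [hG] with n hn using hn.1) hlim hx hconst
    (rn := fun n => (rθ n).1) (θn := fun n => (rθ n).2)
    (by filter_upwards [hG] with n hn using ⟨(hrθ n hn).1, (hrθ n hn).2.1⟩)
  refine ⟨r, θ, hcal, hg, ?_, ?_⟩
  · exact ray_limit_end M hx hconst (rn := fun n => (rθ n).1) (θn := fun n => (rθ n).2)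
      (by filter_upwards [hG] with n hn using ⟨(hrθ n hn).2.1, (hrθ n hn).1.start⟩) hrt
      (by filter_upwards [hG] with n hn using (hrθ n hn).2.2.1) hξ
  · exact hP x hx (fun n => (rθ n).2 0) (θ 0)
      (by filter_upwards [hG] with n hn using (hrθ n hn).2.2.2) hdir

theorem goodP_add_const {u : ℂ → ℝ} {P : ℂ → ℝ → Prop} {b : ℂ → ℝ} {ξ : ℂ}
    (hG : GoodP u P b ξ) (k : ℝ) : GoodP u P (fun z => b z + k) ξ := by
  refine ⟨fun x hx y hy => ?_, fun x hx => ?_⟩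
  · have h := hG.1 x hx y hy
    change b x + k - (b y + k) ≤ dst u x y
    linarith
  · obtain ⟨r, θ, hcal, hg, ht, hF⟩ := hG.2 x hx
    refine ⟨r, θ, ⟨hcal.start, hcal.mem, hcal.one, fun t h0 => ?_⟩, hg, ht, hF⟩
    have h := hcal.cal t h0
    change b (r t) + k = b x + k - t
    linarith

/-- Interior vectors of all calibrated rays have the property, and all calibrated rays end
at `ξ`. -/
theorem goodP_all {u : ℂ → ℝ} {A : ℝ} (M : Met u A) {P : ℂ → ℝ → Prop} (hper : PerP P)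
    {b : ℂ → ℝ} {ξ : ℂ} (hG : GoodP u P b ξ) {x : ℂ} {r : ℝ → ℂ} {θ : ℝ → ℝ}
    (hr : Cal u b x r) (hg : GRay u r θ) :
    Tendsto r atTop (𝓝 ξ) ∧ ∀ s, 0 < s → P (r s) (θ s) := by
  obtain ⟨hb, hall⟩ := hG
  have h1D : r 1 ∈ Disc := hr.mem 1 zero_le_one
  constructor
  · obtain ⟨r', θ', hc', hg', hξ', hF'⟩ := hall (r 1) h1D
    have key : ∀ t, 0 ≤ t → r' t = r (1 + t) ∧ dir (θ' t) = dir (θ (1 + t)) := fun t ht =>
      cal_unique M hb hr hg zero_lt_one hc' hg' ht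
    have h2 : Tendsto (fun t : ℝ => r' (t + -1)) atTop (𝓝 ξ) :=
      hξ'.comp (tendsto_atTop_add_const_right atTop (-1) tendsto_id)
    refine h2.congr' ?_
    filter_upwards [eventually_ge_atTop 1] with t ht
    have h3 := (key (t + -1) (by linarith)).1
    rw [h3]
    congr 1
    ring
  · intro s hs
    obtain ⟨r', θ', hc', hg', -, hF'⟩ := hall (r s) (hr.mem s hs.le)
    have h1 := (cal_unique M hb hr hg hs hc' hg' le_rfl).2
    rw [add_zero] at h1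
    exact hper _ (hr.mem s hs.le) _ _ h1 hF'

/-- The limit function, see `exists_limit_b`. -/
theorem exists_limit_P {u : ℂ → ℝ} {A : ℝ} (M : Met u A) {P : ℂ → ℝ → Prop}
    (hc : ∀ ξ : ℂ, ‖ξ‖ = 1 → ∃ b, GoodP u P b ξ) {ξ : ℂ} (hξ : ‖ξ‖ = 1) :
    ∃ (b : ℂ → ℝ) (bn : ℕ → ℂ → ℝ) (ξn : ℕ → ℂ), Lip1 u b ∧ (∀ n, GoodP u P (bn n) (ξn n)) ∧
      (∀ n, ‖ξn n‖ = 1 ∧ ξn n ≠ ξ) ∧ Tendsto ξn ul (𝓝 ξ) ∧
      ∀ y ∈ Disc, Tendsto (fun n => bn n y) ul (𝓝 (b y)) := by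
  have hd0 : dir 0 = 1 := by
    unfold dir
    simp
  have hn1 : ∀ n : ℕ, ‖ξ * dir (1 / ((n : ℝ) + 1))‖ = 1 := fun n => by
    rw [norm_mul, hξ, norm_dir, one_mul]
  choose b0 hb0 using fun n : ℕ => hc _ (hn1 n)
  have hgood : ∀ n : ℕ, GoodP u P (fun z => b0 n z + (-(b0 n 0)))
      (ξ * dir (1 / ((n : ℝ) + 1))) := fun n => goodP_add_const (hb0 n) _
  obtain ⟨b, hb, hlim⟩ := lip_limit M (bn := fun n z => b0 n z + (-(b0 n 0)))
    (Eventually.of_forall fun n => ⟨(hgood n).1, by ring⟩)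
  refine ⟨b, _, fun n => ξ * dir (1 / ((n : ℝ) + 1)), hb, hgood, fun n => ⟨hn1 n, ?_⟩, ?_, hlim⟩
  · intro h
    have hξ0 : ξ ≠ 0 := by
      intro h0
      rw [h0, norm_zero] at hξ
      exact zero_ne_one hξ
    have h1 : dir (1 / ((n : ℝ) + 1)) = dir 0 := by
      rw [hd0]
      refine mul_left_cancel₀ hξ0 ?_
      rw [mul_one]
      exact h
    obtain ⟨k, hk⟩ := (dir_eq_iff _ _).1 h1
    have hpos : 0 < 1 / ((n : ℝ) + 1) := by positivity
    have hle : 1 / ((n : ℝ) + 1) ≤ 1 := by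
      rw [div_le_one (by positivity)]
      have : (0 : ℝ) ≤ n := Nat.cast_nonneg n
      linarith
    have hpi := Real.pi_gt_three
    rcases lt_or_ge k 0 with hk0 | hk0
    · have : (k : ℝ) ≤ -1 := by
        have : k ≤ -1 := by omega
        exact_mod_cast this
      nlinarith
    · have : (0 : ℝ) ≤ k := by exact_mod_cast hk0
      nlinarith
  · have h1 : Tendsto (fun n : ℕ => 1 / ((n : ℝ) + 1)) atTop (𝓝 0) :=
      tendsto_one_div_add_atTop_nhds_zero_nat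
    have h2 : Continuous dir := by
      unfold dir
      fun_prop
    have h3 : Tendsto (fun n : ℕ => ξ * dir (1 / ((n : ℝ) + 1))) atTop (𝓝 (ξ * dir 0)) :=
      ((h2.tendsto 0).comp h1).const_mul ξ
    rw [hd0, mul_one] at h3
    exact h3.mono_left ul_le

/-- Accumulation in the fibre over an interior point, see `fibre_accumulate`. -/
theorem fibreP {u : ℂ → ℝ} {A : ℝ} (M : Met u A) {P : ℂ → ℝ → Prop} (hper : PerP P)
    {ξ : ℂ} {b : ℂ → ℝ} {bn : ℕ → ℂ → ℝ} {ξn : ℕ → ℂ}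
    (hG : GoodP u P b ξ) (hgood : ∀ n, GoodP u P (bn n) (ξn n))
    (hne : ∀ n, ‖ξn n‖ = 1 ∧ ξn n ≠ ξ)
    (hlim : ∀ y ∈ Disc, Tendsto (fun n => bn n y) ul (𝓝 (b y)))
    {x : ℂ} {r : ℝ → ℂ} {θ : ℝ → ℝ} (hr : Cal u b x r) (hg : GRay u r θ) {s : ℝ}
    (hs : 0 < s) {ε : ℝ} (hε : 0 < ε) :
    ∃ ω' : ℝ, 0 < |ω' - θ s| ∧ |ω' - θ s| < ε ∧ P (r s) ω' := by
  have hrs : r s ∈ Disc := hr.mem s hs.le
  choose rn θn hcal hray hend hval using fun n => (hgood n).2 (r s) hrs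
  obtain ⟨r', θ', hc', hg', -, hdir⟩ := cal_limit M
    (Eventually.of_forall fun n => (hgood n).1) hlim hrs
    (tendsto_const_nhds (x := r s) (f := ul)) (Eventually.of_forall fun n => ⟨hcal n, hray n⟩)
  have h1 := (cal_unique M hG.1 hr hg hs hc' hg' le_rfl).2
  rw [add_zero] at h1
  rw [h1] at hdir
  have h2 : ∀ᶠ n in ul, ‖dir (θn n 0) - dir (θ s)‖ < ε / 2 := by
    have h3 := (tendsto_iff_norm_sub_tendsto_zero.1 hdir)
    exact h3.eventually_lt_const (by linarith)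
  obtain ⟨n, hn⟩ := h2.exists
  obtain ⟨ω', hω, hω2⟩ := exists_near (θ := θ s) (norm_dir (θn n 0))
  refine ⟨ω', ?_, by linarith, ?_⟩
  · rw [abs_pos, sub_ne_zero]
    intro heq
    have hrξ : Tendsto r atTop (𝓝 ξ) := (goodP_all M hper hG hr hg).1
    have hsh := hg.shift hs.le
    have hsame : ∀ T, 0 < T → rn n T = r (s + T) := by
      intro T hT
      have h4 := geo_unique M ((hray n).geo T hT) (hsh.geo T hT)
        (by rw [(hcal n).start, add_zero]) (by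
          show dir (θn n 0) = dir (θ (s + 0))
          rw [add_zero, ← hω, heq]) T ⟨hT.le, le_rfl⟩
      exact h4.1
    have h5 : Tendsto (fun T => r (s + T)) atTop (𝓝 ξ) :=
      hrξ.comp (tendsto_atTop_add_const_left atTop s tendsto_id)
    have h6 : Tendsto (rn n) atTop (𝓝 ξ) := by
      refine h5.congr' ?_
      filter_upwards [eventually_gt_atTop (0 : ℝ)] with T hT
      exact (hsame T hT).symm
    exact (hne n).2 (tendsto_nhds_unique (hend n) h6)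
  · exact hper _ hrs _ _ hω.symm (hval n)

end Pool.Agent.H.MP_bfbbee_an.FL
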