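import Pool.Agent.H.MP_bfbbee_an.helper78.Jet
import Pool.Agent.H.MP_bfbbee_an.SymA

/-!
MP_bfbbee_an (helper78). The vanishing of the derivatives is invariant under isometries.
-/

set_option autoImplicit false

namespace Pool.Agent.H.MP_bfbbee_an.FL

open Filter Topology

theorem jet_comp {E : Type*} [NormedAddCommGroup E] [NormedSpace ℝ E] {G : E → ℝ} {Ψ : E → E}
    {p : E} {m : ℕ} (hG : ContDiffAt ℝ m G (Ψ p)) (hΨ : ContDiffAt ℝ m Ψ p)
    (h : ∀ j ≤ m, iteratedFDeriv ℝ j G (Ψ p) = 0) :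
    ∀ j ≤ m, iteratedFDeriv ℝ j (G ∘ Ψ) p = 0 := by
  intro j hj
  rw [iteratedFDeriv_comp hG hΨ (by exact_mod_cast hj)]
  unfold FormalMultilinearSeries.taylorComp
  refine Finset.sum_eq_zero fun c _ => ?_
  ext v
  rw [FormalMultilinearSeries.compAlongOrderedFinpartition_apply]
  have h1 : ftaylorSeries ℝ G (Ψ p) c.length = 0 := h _ (c.length_le.trans hj)
  rw [h1]
  rfl

theorem jetP_sym {u : ℂ → ℝ} {w a : ℂ} (hs : Sym u w a) {G : ℂ × ℝ → ℝ} (hGs : FSym G w a)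
    {m : ℕ} (hC : ContDiffOn ℝ m G Dom) {x : ℂ} (hx : x ∈ Disc) {θ θ' : ℝ}
    (hd : dir θ' = dir θ * (mobd w a x / (‖mobd w a x‖ : ℂ))) (hJ : JetP G m x θ) :
    JetP G m (mob w a x) θ' := by
  have hs' := hs.symm
  have hGs' := hGs.symm hs
  have hx1 : ‖x‖ < 1 := by simpa [Disc] using hx
  obtain ⟨w', hw'⟩ : ∃ w', w' = (starRingEnd ℂ) w := ⟨_, rfl⟩
  obtain ⟨a', ha'⟩ : ∃ a', a' = -(w * a) := ⟨_, rfl⟩
  obtain ⟨x', hx'⟩ : ∃ x', x' = mob w a x := ⟨_, rfl⟩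
  have hinv : mob w' a' x' = x := by
    rw [hw', ha', hx']
    exact mob_inv hs.hw hs.ha hx1.le
  have hdinv : mobd w' a' x' * mobd w a x = 1 := by
    rw [hw', ha', hx']
    exact mobd_inv hs.hw hs.ha hx1.le
  rw [← hw', ← ha'] at hs' hGs'
  have hx'D : x' ∈ Disc := by
    rw [hx']
    exact mob_mem hs.hw hs.ha hx
  have hx'1 : ‖x'‖ < 1 := by simpa [Disc] using hx'D
  rw [← hx']
  obtain ⟨K, hK⟩ : ∃ K, K = mobd w' a' x' := ⟨_, rfl⟩
  have hK0 : K ≠ 0 := by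
    rw [hK]
    exact mobd_ne hs'.hw hs'.ha hx'1.le
  obtain ⟨Ψ, hΨ⟩ : ∃ Ψ : ℂ × ℝ → ℂ × ℝ, Ψ = fun p => (mob w' a' p.1,
    p.2 + (θ - θ') + (Complex.log (mobd w' a' p.1 / K)).im) := ⟨_, rfl⟩
  have hΨp : Ψ (x', θ') = (x, θ) := by
    rw [hΨ]
    show (mob w' a' x', θ' + (θ - θ') + (Complex.log (mobd w' a' x' / K)).im) = (x, θ)
    rw [hinv, ← hK, div_self hK0, Complex.log_one]
    simp
  -- smoothness
  have hsm : ContDiffAt ℝ m Ψ (x', θ') := by
    rw [hΨ]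
    have hfst : ContDiffAt ℝ m (fun p : ℂ × ℝ => p.1) (x', θ') := contDiffAt_fst
    have h1 : ContDiffAt ℂ m (mob w' a') x' := by
      unfold mob
      exact ContDiffAt.div (by fun_prop) (by fun_prop) (den_ne hs'.ha hx'1.le)
    have h2 : ContDiffAt ℝ m (fun p : ℂ × ℝ => mob w' a' p.1) (x', θ') :=
      ContDiffAt.fun_comp (f := fun p : ℂ × ℝ => p.1) (g := mob w' a') (x', θ')
        (h1.restrict_scalars ℝ) hfst
    have h3 : ContDiffAt ℂ m (fun z => mobd w' a' z / K) x' := by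
      unfold mobd
      have h31 : ContDiffAt ℂ m (fun z : ℂ => (1 - (starRingEnd ℂ) a' * z) ^ 2) x' := by fun_prop
      exact (ContDiffAt.div contDiffAt_const h31
        (pow_ne_zero 2 (den_ne hs'.ha hx'1.le))).div_const K
    have h4 : ContDiffAt ℂ m (fun z => Complex.log (mobd w' a' z / K)) x' := by
      refine (Complex.contDiffAt_log (x := mobd w' a' x' / K) ?_).comp x' h3
      rw [← hK, div_self hK0]
      exact Complex.one_mem_slitPlane
    have h5 : ContDiffAt ℝ m (fun p : ℂ × ℝ => Complex.log (mobd w' a' p.1 / K)) (x', θ') :=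
      ContDiffAt.fun_comp (f := fun p : ℂ × ℝ => p.1)
        (g := fun z => Complex.log (mobd w' a' z / K)) (x', θ') (h4.restrict_scalars ℝ) hfst
    have h6 : ContDiffAt ℝ m (fun p : ℂ × ℝ => (Complex.log (mobd w' a' p.1 / K)).im) (x', θ') :=
      Complex.imCLM.contDiff.contDiffAt.comp (x', θ') h5
    have h7 : ContDiffAt ℝ m (fun p : ℂ × ℝ => p.2 + (θ - θ')) (x', θ') := by fun_prop
    exact h2.prodMk (h7.add h6)
  -- invariance
  have hev : (G ∘ Ψ) =ᶠ[𝓝 (x', θ')] G := by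
    filter_upwards [isOpen_Dom.mem_nhds (⟨hx'D, Set.mem_univ θ'⟩ : (x', θ') ∈ Dom)] with p hp
    rw [hΨ]
    show G (mob w' a' p.1, p.2 + (θ - θ') + (Complex.log (mobd w' a' p.1 / K)).im) = G p
    have hp1 : ‖p.1‖ < 1 := by simpa [Disc] using hp.1
    have hM0 : mobd w' a' p.1 ≠ 0 := mobd_ne hs'.hw hs'.ha hp1.le
    refine hGs' p.1 hp.1 p.2 _ ?_
    obtain ⟨q, hq⟩ : ∃ q, q = mobd w' a' p.1 / K := ⟨_, rfl⟩
    have hq0 : q ≠ 0 := by
      rw [hq]
      exact div_ne_zero hM0 hK0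
    have e1 : dir (p.2 + (θ - θ') + (Complex.log (mobd w' a' p.1 / K)).im) =
        dir p.2 * (dir θ / dir θ') * (q / (‖q‖ : ℂ)) := by
      rw [← hq]
      have e2 : Complex.exp (((Complex.log q).im : ℝ) * Complex.I) = q / (‖q‖ : ℂ) := by
        rw [Complex.log_im, eq_div_iff (by simpa using hq0), mul_comm]
        exact Complex.norm_mul_exp_arg_mul_I q
      rw [← e2]
      unfold dir
      rw [← Complex.exp_sub, ← Complex.exp_add, ← Complex.exp_add]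
      congr 1
      push_cast
      ring
    have hdθ' : dir θ' ≠ 0 := by
      unfold dir
      exact Complex.exp_ne_zero _
    have hdθ : dir θ ≠ 0 := by
      unfold dir
      exact Complex.exp_ne_zero _
    have hN0 : mobd w a x ≠ 0 := mobd_ne hs.hw hs.ha hx1.le
    have hNn : ((‖mobd w a x‖ : ℝ) : ℂ) ≠ 0 := by simpa using hN0
    have hKn : ((‖K‖ : ℝ) : ℂ) ≠ 0 := by simpa using hK0
    have hMn : ((‖mobd w' a' p.1‖ : ℝ) : ℂ) ≠ 0 := by simpa using hM0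
    have hnK : ((‖K‖ : ℝ) : ℂ) * ((‖mobd w a x‖ : ℝ) : ℂ) = 1 := by
      have := congrArg norm hdinv
      rw [norm_mul, norm_one, ← hK] at this
      exact_mod_cast this
    have e3 : dir θ / dir θ' = K / (‖K‖ : ℂ) := by
      rw [hd, div_eq_div_iff (by rw [← hd]; exact hdθ') hKn]
      rw [← hK] at hdinv
      have e4 : K * (dir θ * (mobd w a x / (‖mobd w a x‖ : ℂ))) =
          dir θ * ((K * mobd w a x) / (‖mobd w a x‖ : ℂ)) := by ring
      rw [e4, hdinv, ← hnK, mul_div_assoc, div_self hNn, mul_one]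
    have e5 : q / (‖q‖ : ℂ) = mobd w' a' p.1 / (‖mobd w' a' p.1‖ : ℂ) * ((‖K‖ : ℂ) / K) := by
      rw [hq, norm_div]
      push_cast
      field_simp
    rw [e1, e3, e5]
    field_simp
  have hmem : ((x, θ) : ℂ × ℝ) ∈ Dom := ⟨hx, Set.mem_univ _⟩
  have hGc : ContDiffAt ℝ m G (Ψ (x', θ')) := by
    rw [hΨp]
    exact hC.contDiffAt (isOpen_Dom.mem_nhds hmem)
  intro j hj
  rw [← (hev.iteratedFDeriv ℝ j).eq_of_nhds]
  refine jet_comp hGc hsm ?_ j hj
  rw [hΨp]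
  exact hJ

theorem jetAll_sym {u : ℂ → ℝ} {w a : ℂ} (hs : Sym u w a) {G : ℂ × ℝ → ℝ} (hGs : FSym G w a)
    {x : ℂ} (hx : x ∈ Disc) {θ θ' : ℝ}
    (hd : dir θ' = dir θ * (mobd w a x / (‖mobd w a x‖ : ℂ))) (hJ : JetAll G x θ) :
    JetAll G (mob w a x) θ' :=
  fun m hC => jetP_sym hs hGs hC hx hd (hJ m hC)

/-- The image of a good function under an isometry. -/
theorem goodP_sym {u : ℂ → ℝ} {A : ℝ} (M : Met u A) {P : ℂ → ℝ → Prop}
    {b : ℂ → ℝ} {ξ : ℂ} (hξ : ‖ξ‖ = 1) (hG : GoodP u P b ξ) {w a : ℂ} (h : Sym u w a)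
    (hP : ∀ z ∈ Disc, ∀ θ θ' : ℝ, dir θ' = dir θ * (mobd w a z / (‖mobd w a z‖ : ℂ)) →
      P z θ → P (mob w a z) θ') :
    GoodP u P (fun z => b (mob ((starRingEnd ℂ) w) (-(w * a)) z)) (mob w a ξ) := by
  have hs := h.symm
  have hnorm : ∀ z ∈ Disc, ‖z‖ ≤ 1 := by
    intro z hz
    have hz' : ‖z‖ < 1 := by simpa [Disc] using hz
    exact hz'.le
  refine ⟨fun x hx y hy => ?_, fun x hx => ?_⟩
  · have h1 := hG.1 _ (mob_mem hs.hw hs.ha hx) _ (mob_mem hs.hw hs.ha hy)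
    rw [hs.dst_eq M hx hy] at h1
    exact h1
  · have hy := mob_mem hs.hw hs.ha hx
    have hgy : mob w a (mob ((starRingEnd ℂ) w) (-(w * a)) x) = x :=
      mob_inv' h.hw h.ha (hnorm x hx)
    obtain ⟨r, θ, hcal, hg, ht, hF⟩ := hG.2 _ hy
    obtain ⟨θ', hg', hd⟩ := h.ray M hg
    refine ⟨fun t => mob w a (r t), θ', ⟨?_, ?_, ?_, ?_⟩, hg', ?_, ?_⟩
    · rw [hcal.start, hgy]
    · intro t h0
      exact mob_mem h.hw h.ha (hcal.mem t h0)
    · intro s h0 t h1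
      rw [h.dst_eq M (hcal.mem s h0) (hcal.mem t h1)]
      exact hcal.one s h0 t h1
    · intro t h0
      rw [mob_inv h.hw h.ha (hnorm _ (hcal.mem t h0))]
      exact hcal.cal t h0
    · exact ((mob_hasDerivAt h.ha hξ.le).continuousAt.tendsto).comp ht
    · have h1 := hP (r 0) (hcal.mem 0 le_rfl) (θ 0) (θ' 0) (hd 0 le_rfl) (by
        rw [hcal.start]
        exact hF)
      rw [hcal.start, hgy] at h1
      exact h1

end Pool.Agent.H.MP_bfbbee_an.FL
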