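import Pool.Agent.H.MP_bfbbee_an.helper78.UniqV

/-!
MP_bfbbee_an (helper78). Reversed geodesics: the value of a first integral on the opposite vectors.
-/

set_option autoImplicit false

namespace Pool.Agent.H.MP_bfbbee_an.FL

open Filter Topology

theorem dir_add_pi (θ : ℝ) : dir (θ + Real.pi) = -dir θ := by
  unfold dir
  have h : ((θ + Real.pi : ℝ) : ℂ) * Complex.I = θ * Complex.I + Real.pi * Complex.I := by
    push_cast
    ring
  rw [h, Complex.exp_add, Complex.exp_pi_mul_I]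
  ring

theorem kap_neg (u : ℂ → ℝ) (z v : ℂ) : kap u z (-v) = -kap u z v := by
  unfold kap
  rw [mul_neg, map_neg, neg_div]

/-- The reversed geodesic. -/
theorem geo_reverse {u : ℂ → ℝ} {a b : ℝ} {z : ℝ → ℂ} {θ : ℝ → ℝ} (h : IsGeodesicOn u a b z θ) :
    IsGeodesicOn u a b (fun t => z (a + b - t)) (fun t => θ (a + b - t) + Real.pi) := by
  intro t ht
  have hs : a + b - t ∈ Set.Icc a b := ⟨by linarith [ht.2], by linarith [ht.1]⟩
  obtain ⟨h1, h2, h3⟩ := h _ hs
  have hd : HasDerivWithinAt (fun t : ℝ => a + b - t) (-1) (Set.Icc a b) t :=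
    ((hasDerivAt_id t).const_sub (a + b)).hasDerivWithinAt
  have hm : Set.MapsTo (fun t : ℝ => a + b - t) (Set.Icc a b) (Set.Icc a b) :=
    fun x hx => ⟨by linarith [hx.2], by linarith [hx.1]⟩
  refine ⟨h1, ?_, ?_⟩
  · have h4 := h2.scomp t hd hm
    refine h4.congr_deriv ?_
    rw [dir_add_pi, neg_smul, one_smul, neg_div]
  · have h4 := (h3.scomp t hd hm).add_const Real.pi
    refine h4.congr_deriv ?_
    rw [dir_add_pi, kap_neg, neg_smul, one_smul]

/-- The function `F` on the opposite vectors is a first integral. -/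
theorem first_rev {u : ℂ → ℝ} {F : ℂ × ℝ → ℝ} (hF : FirstIntegral u F) :
    FirstIntegral u (fun p => F (p.1, p.2 + Real.pi)) := by
  refine ⟨?_, fun z hz θ => ?_, fun a b z θ hab h => ?_⟩
  · refine hF.cont.comp (f := fun p : ℂ × ℝ => (p.1, p.2 + Real.pi)) ?_ ?_
    · exact Continuous.continuousOn (by fun_prop)
    · intro p hp
      exact ⟨hp.1, Set.mem_univ _⟩
  · have h1 := hF.per z hz (θ + Real.pi)
    have h2 : θ + 2 * Real.pi + Real.pi = θ + Real.pi + 2 * Real.pi := by ring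
    show F (z, θ + 2 * Real.pi + Real.pi) = F (z, θ + Real.pi)
    rw [h2, h1]
  · have h1 := hF.inv a b _ _ hab (geo_reverse h)
    simp only [add_sub_cancel_left, add_sub_cancel_right] at h1
    exact h1.symm

theorem cocoF_rev {u : ℂ → ℝ} {F : ℂ × ℝ → ℝ} {R : ℝ} (hco : CocoF u F R) :
    CocoF u (fun p => F (p.1, p.2 + Real.pi)) R := by
  refine ⟨hco.pos, hco.lt, fun z hz => ?_⟩
  obtain ⟨w, a, h1, h2, h3⟩ := hco.move z hz
  refine ⟨w, a, h1, fun y hy θ θ' hd => ?_, h3⟩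
  refine h2 y hy (θ + Real.pi) (θ' + Real.pi) ?_
  rw [dir_add_pi, dir_add_pi, hd]
  ring

/-- There are two opposite minimal rays (a minimal line). -/
theorem exists_line {u : ℂ → ℝ} {A : ℝ} (M : Met u A) {R : ℝ} (hco : Coco u R) :
    ∃ r θ r' θ', GRay u r θ ∧ GRay u r' θ' ∧ r' 0 = r 0 ∧ dir (θ' 0) = -dir (θ 0) := by
  have h0 : (0 : ℂ) ∈ Disc := by simp [Disc]
  obtain ⟨r, θ, hg, -, -⟩ := exists_ray M h0 (ξ := 1) norm_one
  have hn0 : ∀ n : ℕ, (0 : ℝ) ≤ n := fun n => Nat.cast_nonneg n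
  choose w a hs hm using fun n : ℕ => hco.move (r n) (hg.mem n (hn0 n))
  have hray : ∀ n : ℕ, ∃ θn : ℝ → ℝ, GRay u (fun t => mob (w n) (a n) (r t)) θn := by
    intro n
    obtain ⟨θn, h1, -⟩ := (hs n).ray M hg
    exact ⟨θn, h1⟩
  choose θn hθn using hray
  have hR := hco.lt
  obtain ⟨y, hyR, hyl⟩ := exists_ul_lim (isCompact_closedBall (0 : ℂ) R)
    (f := fun n => mob (w n) (a n) (r n))
    (Eventually.of_forall fun n => by
      rw [mem_closedBall_zero_iff]
      exact hm n)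
  have hy : y ∈ Disc := by
    rw [mem_closedBall_zero_iff] at hyR
    rw [Disc, mem_ball_zero_iff]
    linarith
  -- forward
  obtain ⟨ρ, ϑ, hρ, hρ0, -, hρd⟩ := ray_limit M hy hyl
    (rn := fun n t => mob (w n) (a n) (r (n + t))) (θn := fun n t => θn n (n + t))
    (Eventually.of_forall fun n => ⟨(hθn n).shift (hn0 n), by simp⟩)
  -- backward
  have hL : Tendsto (fun n : ℕ => (n : ℝ)) ul atTop :=
    tendsto_natCast_atTop_atTop.mono_left ul_le
  obtain ⟨ρ', ϑ', hρ', hρ0', -, hρd'⟩ := seg_limit M hy hyl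
    (σn := fun n t => mob (w n) (a n) (r (n - t)))
    (θn := fun n t => θn n (n - t) + Real.pi) hL (by
      have h1 : ∀ᶠ n : ℕ in ul, 1 ≤ n := (eventually_ge_atTop 1).filter_mono ul_le
      filter_upwards [h1] with n hn
      have hn1 : (1 : ℝ) ≤ n := by exact_mod_cast hn
      refine ⟨?_, ?_, by simp⟩
      · have h2 : IsoOn u 0 n (fun t => mob (w n) (a n) (r t)) := Decay_iso (hθn n) n
        exact isoOn_reverse h2 le_rfl
      · have h2 := geo_reverse ((hθn n).geo n (by linarith))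
        simp only [zero_add] at h2
        exact h2)
  refine ⟨ρ, ϑ, ρ', ϑ', hρ, hρ', hρ0'.trans hρ0.symm, ?_⟩
  have h1 : Tendsto (fun n : ℕ => dir (θn n (n - 0) + Real.pi)) ul (𝓝 (-dir (ϑ 0))) := by
    have h2 : Tendsto (fun n : ℕ => -dir (θn n (n + 0))) ul (𝓝 (-dir (ϑ 0))) := hρd.neg
    refine h2.congr fun n => ?_
    rw [dir_add_pi, add_zero, sub_zero]
  exact tendsto_nhds_unique hρd' h1

/-- A first integral has one value on the initial vectors of all minimal rays and on their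
opposite vectors. -/
theorem one_value {u : ℂ → ℝ} {A : ℝ} (M : Met u A) {F : ℂ × ℝ → ℝ}
    (hF : FirstIntegral u F) {R : ℝ} (hco : CocoF u F R) :
    ∃ c : ℝ, ∀ (r : ℝ → ℂ) (θ : ℝ → ℝ), GRay u r θ →
      F (r 0, θ 0) = c ∧ F (r 0, θ 0 + Real.pi) = c := by
  have hcoC : Coco u R := ⟨hco.pos, hco.lt, fun z hz => by
    obtain ⟨w, a, h1, -, h2⟩ := hco.move z hz
    exact ⟨w, a, h1, h2⟩⟩
  have hF' := first_rev hF
  have hco' := cocoF_rev hco
  obtain ⟨c, hc⟩ := exists_value M hF hco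
  obtain ⟨c', hc'⟩ := exists_value M hF' hco'
  have h1 : ∀ (r : ℝ → ℂ) (θ : ℝ → ℝ), GRay u r θ → F (r 0, θ 0) = c := fun r θ hr =>
    value_all M hF hco hc hr
  have h2 : ∀ (r : ℝ → ℂ) (θ : ℝ → ℝ), GRay u r θ → F (r 0, θ 0 + Real.pi) = c' := fun r θ hr =>
    value_all M hF' hco' hc' hr
  obtain ⟨r, θ, r', θ', hr, hr', h0, hd⟩ := exists_line M hcoC
  have h3 : c = c' := by
    rw [← h1 r' θ' hr', ← h2 r θ hr, h0]
    refine F_congr hF (hr.mem 0 le_rfl) ?_
    rw [hd, dir_add_pi]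
  exact ⟨c, fun r θ hr => ⟨h1 r θ hr, by rw [h2 r θ hr, h3]⟩⟩

end Pool.Agent.H.MP_bfbbee_an.FL
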