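import Pool.Agent.H.MP_bfbbee_an.SymA
import Pool.Agent.H.MP_bfbbee_an.CurveLen
import Pool.Agent.H.MP_bfbbee_an.RegC

/-!
MP_bfbbee_an (helper78). Images of geodesic arcs, not necessarily minimal, under isometries; the
distance of the end points of a geodesic arc is at most its length.
-/

set_option autoImplicit false

namespace Pool.Agent.H.MP_bfbbee_an

open Filter Topology

/-- The distance of two points of a geodesic arc is at most the length of the arc. -/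
theorem geo_dst_le {u : ℂ → ℝ} {A : ℝ} (M : Met u A) {a b : ℝ} {z : ℝ → ℂ} {θ : ℝ → ℝ}
    (h : IsGeodesicOn u a b z θ) {s : ℝ} (hs : s ∈ Set.Icc a b) {t : ℝ} (ht : t ∈ Set.Icc a b) :
    dst u (z s) (z t) ≤ |s - t| := by
  have key : ∀ s ∈ Set.Icc a b, ∀ t ∈ Set.Icc a b, s ≤ t → dst u (z s) (z t) ≤ t - s := by
    intro s hs t ht hst
    have hg : IsGeodesicOn u s t z θ := h.mono hs.1 ht.2
    have hc : ContinuousOn (fun x => dir (θ x) / (rho u (z x) : ℂ)) (Set.Icc s t) := by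
      have h1 : ContinuousOn z (Set.Icc s t) := fun x hx => (hg x hx).2.1.continuousWithinAt
      have h2 : ContinuousOn θ (Set.Icc s t) := fun x hx => (hg x hx).2.2.continuousWithinAt
      have h3 : Continuous dir := by unfold dir; fun_prop
      have h4 : ContinuousOn (fun x => rho u (z x)) (Set.Icc s t) :=
        (rho_contDiffOn M).continuousOn.comp h1 fun x hx => (hg x hx).1
      refine (h3.comp_continuousOn h2).div (Complex.continuous_ofReal.comp_continuousOn h4) ?_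
      intro x hx
      exact_mod_cast (rho_pos u (hg x hx).1).ne'
    have h1 := dst_le_length_C1 M hst (fun x hx => (hg x hx).2.1) hc fun x hx => (hg x hx).1
    have h2 : ∫ x in s..t, rho u (z x) * ‖dir (θ x) / (rho u (z x) : ℂ)‖ = t - s := by
      have h3 : ∀ x ∈ Set.uIcc s t, rho u (z x) * ‖dir (θ x) / (rho u (z x) : ℂ)‖ = 1 := by
        intro x hx
        rw [Set.uIcc_of_le hst] at hx
        have h5 := rho_pos u (hg x hx).1
        rw [norm_div, norm_dir, Complex.norm_real, Real.norm_eq_abs, abs_of_pos h5,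
          mul_one_div_cancel h5.ne']
      rw [intervalIntegral.integral_congr (g := fun _ => (1 : ℝ)) h3]
      simp
    rwa [h2] at h1
  rcases le_total s t with hst | hst
  · rw [abs_sub_comm, abs_of_nonneg (sub_nonneg.2 hst)]
    exact key s hs t ht hst
  · rw [abs_of_nonneg (sub_nonneg.2 hst), dst_comm]
    exact key t ht s hs hst

theorem symgeo_re_pos {a z : ℂ} (ha : ‖a‖ < 1) (hz : ‖z‖ ≤ 1) :
    0 < (1 - (starRingEnd ℂ) a * z).re := by
  have h1 : ((starRingEnd ℂ) a * z).re ≤ ‖(starRingEnd ℂ) a * z‖ := Complex.re_le_norm _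
  have h2 : ‖(starRingEnd ℂ) a * z‖ ≤ ‖a‖ * 1 := by
    rw [norm_mul, RCLike.norm_conj]
    exact mul_le_mul_of_nonneg_left hz (norm_nonneg _)
  rw [Complex.sub_re, Complex.one_re]
  linarith

theorem symgeo_log {a z : ℂ} (ha : ‖a‖ < 1) (hz : ‖z‖ ≤ 1) :
    HasDerivAt (fun x : ℂ => Complex.log (1 - (starRingEnd ℂ) a * x))
      (-(starRingEnd ℂ) a / (1 - (starRingEnd ℂ) a * z)) z := by
  have h2 : HasDerivAt (fun x : ℂ => 1 - (starRingEnd ℂ) a * x) (-(starRingEnd ℂ) a) z := by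
    simpa using ((hasDerivAt_id z).const_mul ((starRingEnd ℂ) a)).const_sub 1
  exact h2.clog (Or.inl (symgeo_re_pos ha hz))

/-- `phi (g y) = phi y + 2 Re log (1 - conj a y) - log (1 - |a|²)`. -/
theorem symgeo_phi_eq {u : ℂ → ℝ} {w a : ℂ} (h : Sym u w a) {y : ℂ} (hy : y ∈ Disc) :
    phi u (mob w a y) =
      phi u y + 2 * (Complex.log (1 - (starRingEnd ℂ) a * y)).re - Real.log (1 - ‖a‖ ^ 2) := by
  have hy1 : ‖y‖ < 1 := mem_ball_zero_iff.1 hy
  have h1 := h.rho_eq hy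
  have h2 := rho_pos u (mob_mem h.hw h.ha hy)
  have h3 : 0 < ‖mobd w a y‖ := norm_pos_iff.2 (mobd_ne h.hw h.ha hy1.le)
  have h4 : 0 < ‖1 - (starRingEnd ℂ) a * y‖ := norm_pos_iff.2 (den_ne h.ha hy1.le)
  have h5 : Real.log (rho u y) = Real.log (rho u (mob w a y)) + Real.log ‖mobd w a y‖ := by
    rw [← h1, Real.log_mul h2.ne' h3.ne']
  have h6 : Real.log ‖mobd w a y‖ =
      Real.log (1 - ‖a‖ ^ 2) - 2 * Real.log ‖1 - (starRingEnd ℂ) a * y‖ := by
    rw [norm_mobd h.hw h.ha, Real.log_div (mob_aux1 h.ha).ne' (pow_pos h4 2).ne', Real.log_pow]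
    norm_num
  rw [Complex.log_re]
  unfold phi
  rw [h5, h6]
  ring

/-- The differential of `phi` at the image point. -/
theorem symgeo_phi {u : ℂ → ℝ} {A : ℝ} (M : Met u A) {w a : ℂ} (h : Sym u w a) {z : ℂ}
    (hz : z ∈ Disc) (k : ℂ) :
    fderiv ℝ (phi u) (mob w a z) (mobd w a z * k) =
      fderiv ℝ (phi u) z k -
        2 * ((starRingEnd ℂ) a * k / (1 - (starRingEnd ℂ) a * z)).re := by
  have hz1 : ‖z‖ < 1 := mem_ball_zero_iff.1 hz
  have hdiff : ∀ y ∈ Disc, DifferentiableAt ℝ (phi u) y := fun y hy =>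
    ((phi_contDiffOn M).differentiableOn (by norm_num)).differentiableAt
      (Metric.isOpen_ball.mem_nhds hy)
  have hl : HasDerivAt (fun s : ℝ => z + (s : ℂ) * k) k 0 := by
    have h1 : HasDerivAt (fun s : ℝ => (s : ℂ) * k) (1 * k) 0 :=
      (Complex.ofRealCLM.hasDerivAt (x := (0 : ℝ))).mul_const k
    rw [one_mul] at h1
    exact h1.const_add z
  have hl0 : z + ((0 : ℝ) : ℂ) * k = z := by simp
  have h1 : HasDerivAt (fun s : ℝ => mob w a (z + (s : ℂ) * k)) (mobd w a z * k) 0 :=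
    HasDerivAt.comp_of_eq (0 : ℝ) (mob_hasDerivAt (w := w) h.ha hz1.le) hl hl0.symm
  have h2 : HasDerivAt (fun s : ℝ => phi u (mob w a (z + (s : ℂ) * k)))
      (fderiv ℝ (phi u) (mob w a z) (mobd w a z * k)) 0 :=
    HasFDerivAt.comp_hasDerivAt_of_eq (0 : ℝ)
      (hdiff _ (mob_mem h.hw h.ha hz)).hasFDerivAt h1 (by rw [hl0])
  have h3 : HasDerivAt (fun s : ℝ => phi u (z + (s : ℂ) * k)) (fderiv ℝ (phi u) z k) 0 :=
    HasFDerivAt.comp_hasDerivAt_of_eq (0 : ℝ) (hdiff _ hz).hasFDerivAt hl hl0.symm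
  have h4 : HasDerivAt (fun s : ℝ => Complex.log (1 - (starRingEnd ℂ) a * (z + (s : ℂ) * k)))
      (-(starRingEnd ℂ) a / (1 - (starRingEnd ℂ) a * z) * k) 0 :=
    HasDerivAt.comp_of_eq (0 : ℝ) (symgeo_log h.ha hz1.le) hl hl0.symm
  have h5 : HasDerivAt
      (fun s : ℝ => (Complex.log (1 - (starRingEnd ℂ) a * (z + (s : ℂ) * k))).re)
      (-(starRingEnd ℂ) a / (1 - (starRingEnd ℂ) a * z) * k).re 0 :=
    Complex.reCLM.hasFDerivAt.comp_hasDerivAt (0 : ℝ) h4
  have h6 := (h3.add (h5.const_mul 2)).sub_const (Real.log (1 - ‖a‖ ^ 2))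
  have hev : (fun s : ℝ => phi u (mob w a (z + (s : ℂ) * k))) =ᶠ[𝓝 0]
      fun s : ℝ => phi u (z + (s : ℂ) * k) +
        2 * (Complex.log (1 - (starRingEnd ℂ) a * (z + (s : ℂ) * k))).re -
          Real.log (1 - ‖a‖ ^ 2) := by
    have hmem : ∀ᶠ s : ℝ in 𝓝 0, z + (s : ℂ) * k ∈ Disc := by
      refine hl.continuousAt.eventually_mem ?_
      rw [hl0]
      exact Metric.isOpen_ball.mem_nhds hz
    filter_upwards [hmem] with s hs
    exact symgeo_phi_eq h hs
  have h7 := h2.unique (h6.congr_of_eventuallyEq hev)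
  rw [h7]
  have h8 : -(starRingEnd ℂ) a / (1 - (starRingEnd ℂ) a * z) * k =
      -((starRingEnd ℂ) a * k / (1 - (starRingEnd ℂ) a * z)) := by ring
  rw [h8, Complex.neg_re]
  ring

/-- The angle of the derivative of a Möbius map. -/
theorem symgeo_dir {w a : ℂ} {α : ℝ} (hα : dir α = w) (ha : ‖a‖ < 1) {y : ℂ}
    (hy : ‖y‖ ≤ 1) (θ : ℝ) :
    dir (θ + (α - 2 * (Complex.log (1 - (starRingEnd ℂ) a * y)).im)) =
      dir θ * (mobd w a y / (‖mobd w a y‖ : ℂ)) := by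
  have hw : ‖w‖ = 1 := by rw [← hα, norm_dir]
  have hD := den_ne ha hy
  obtain ⟨ℓ, hℓ⟩ : ∃ ℓ, ℓ = Complex.log (1 - (starRingEnd ℂ) a * y) := ⟨_, rfl⟩
  have hexp : Complex.exp ℓ = 1 - (starRingEnd ℂ) a * y := by rw [hℓ, Complex.exp_log hD]
  have hq : (0 : ℝ) < 1 - ‖a‖ ^ 2 := mob_aux1 ha
  have h1 : mobd w a y = w * ((1 - ‖a‖ ^ 2 : ℝ) : ℂ) * Complex.exp (-(2 * ℓ)) := by
    unfold mobd
    rw [← hexp, Complex.exp_neg, ← Complex.exp_nat_mul]
    push_cast
    rw [div_eq_mul_inv]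
  have h2 : ‖mobd w a y‖ = (1 - ‖a‖ ^ 2) * Real.exp (-(2 * ℓ.re)) := by
    rw [h1, norm_mul, norm_mul, hw, one_mul, Complex.norm_real, Real.norm_eq_abs,
      abs_of_pos hq, Complex.norm_exp]
    congr 2
    simp
  rw [← hℓ]
  have h3 : mobd w a y / ((‖mobd w a y‖ : ℝ) : ℂ) =
      w * Complex.exp (-(2 * ℓ.im : ℝ) * Complex.I) := by
    have h4 : ((‖mobd w a y‖ : ℝ) : ℂ) ≠ 0 := by
      exact_mod_cast norm_ne_zero_iff.2 (mobd_ne hw ha hy)
    rw [div_eq_iff h4, h2, h1]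
    push_cast
    have h5 : Complex.exp (-(2 * ℓ)) =
        Complex.exp (-(2 * (ℓ.im : ℂ)) * Complex.I) * Complex.exp (-(2 * (ℓ.re : ℂ))) := by
      rw [← Complex.exp_add]
      congr 1
      have h6 := Complex.re_add_im ℓ
      calc -(2 * ℓ) = -(2 * ((ℓ.re : ℂ) + (ℓ.im : ℂ) * Complex.I)) := by rw [h6]
        _ = _ := by ring
    rw [h5]
    ring
  rw [h3, ← hα]
  unfold dir
  rw [← Complex.exp_add, ← Complex.exp_add]
  congr 1
  push_cast
  ring

/-- The image of a geodesic arc under a Möbius isometry is a geodesic arc. -/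
theorem Sym.geo {u : ℂ → ℝ} {A : ℝ} (M : Met u A) {w a : ℂ} (h : Sym u w a) {s t : ℝ}
    {z : ℝ → ℂ} {θ : ℝ → ℝ} (hz : IsGeodesicOn u s t z θ) :
    ∃ θ' : ℝ → ℝ, IsGeodesicOn u s t (fun x => mob w a (z x)) θ' ∧
      ∀ x ∈ Set.Icc s t, dir (θ' x) = dir (θ x) * (mobd w a (z x) / (‖mobd w a (z x)‖ : ℂ)) := by
  obtain ⟨α, -, hα⟩ := exists_dir h.hw
  obtain ⟨θ', hθ'⟩ : ∃ θ' : ℝ → ℝ, θ' = fun x =>
      θ x + (α - 2 * (Complex.log (1 - (starRingEnd ℂ) a * z x)).im) := ⟨_, rfl⟩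
  have hdir : ∀ x ∈ Set.Icc s t,
      dir (θ' x) = dir (θ x) * (mobd w a (z x) / (‖mobd w a (z x)‖ : ℂ)) := by
    intro x hx
    rw [hθ']
    exact symgeo_dir hα h.ha (mem_ball_zero_iff.1 (hz x hx).1).le (θ x)
  refine ⟨θ', fun x hx => ?_, hdir⟩
  obtain ⟨hm, h1, h2⟩ := hz x hx
  have hn : ‖z x‖ < 1 := mem_ball_zero_iff.1 hm
  have hm' : mob w a (z x) ∈ Disc := mob_mem h.hw h.ha hm
  have hr := rho_pos u hm
  have hr' := rho_pos u hm'
  have hmd : mobd w a (z x) ≠ 0 := mobd_ne h.hw h.ha hn.le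
  have hnm : 0 < ‖mobd w a (z x)‖ := norm_pos_iff.2 hmd
  have hre := h.rho_eq hm
  have hrC : ((rho u (z x) : ℝ) : ℂ) ≠ 0 := by exact_mod_cast hr.ne'
  have hrC' : ((rho u (mob w a (z x)) : ℝ) : ℂ) ≠ 0 := by exact_mod_cast hr'.ne'
  have hnC : ((‖mobd w a (z x)‖ : ℝ) : ℂ) ≠ 0 := by exact_mod_cast hnm.ne'
  have hreC : ((rho u (mob w a (z x)) : ℝ) : ℂ) * ((‖mobd w a (z x)‖ : ℝ) : ℂ) =
      ((rho u (z x) : ℝ) : ℂ) := by exact_mod_cast hre
  have hD := den_ne h.ha hn.le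
  refine ⟨hm', ?_, ?_⟩
  · have h3 := HasDerivAt.comp_hasDerivWithinAt (h₂ := mob w a) (h := z) x
      (mob_hasDerivAt (w := w) h.ha hn.le) h1
    have h4 : mobd w a (z x) * (dir (θ x) / (rho u (z x) : ℂ)) =
        dir (θ' x) / (rho u (mob w a (z x)) : ℂ) := by
      rw [hdir x hx, ← hreC]
      field_simp
    rw [← h4]
    exact h3
  · have h3 : HasDerivWithinAt (fun y => Complex.log (1 - (starRingEnd ℂ) a * z y))
        (-(starRingEnd ℂ) a / (1 - (starRingEnd ℂ) a * z x) *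
          (dir (θ x) / (rho u (z x) : ℂ))) (Set.Icc s t) x :=
      HasDerivAt.comp_hasDerivWithinAt (h₂ := fun y : ℂ =>
        Complex.log (1 - (starRingEnd ℂ) a * y)) (h := z) x
        (symgeo_log h.ha hn.le) h1
    have h4 : HasDerivWithinAt (fun y => (Complex.log (1 - (starRingEnd ℂ) a * z y)).im)
        (-(starRingEnd ℂ) a / (1 - (starRingEnd ℂ) a * z x) *
          (dir (θ x) / (rho u (z x) : ℂ))).im (Set.Icc s t) x :=
      Complex.imCLM.hasFDerivAt.comp_hasDerivWithinAt x h3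
    have h5 := h2.add ((h4.const_mul 2).const_sub α)
    have h6 : kap u (mob w a (z x)) (dir (θ' x)) = kap u (z x) (dir (θ x)) +
        -(2 * (-(starRingEnd ℂ) a / (1 - (starRingEnd ℂ) a * z x) *
          (dir (θ x) / (rho u (z x) : ℂ))).im) := by
      have h7 := symgeo_phi M h hm (Complex.I * dir (θ x) / (‖mobd w a (z x)‖ : ℂ))
      have h8 : mobd w a (z x) * (Complex.I * dir (θ x) / (‖mobd w a (z x)‖ : ℂ)) =
          Complex.I * dir (θ' x) := by
        rw [hdir x hx]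
        field_simp
      have h9 : Complex.I * dir (θ x) / (‖mobd w a (z x)‖ : ℂ) =
          (‖mobd w a (z x)‖⁻¹ : ℝ) • (Complex.I * dir (θ x)) := by
        rw [Complex.real_smul]
        push_cast
        ring
      have h10 : ((starRingEnd ℂ) a * (Complex.I * dir (θ x) / (‖mobd w a (z x)‖ : ℂ)) /
          (1 - (starRingEnd ℂ) a * z x)).re = -(‖mobd w a (z x)‖⁻¹ *
            ((starRingEnd ℂ) a * dir (θ x) / (1 - (starRingEnd ℂ) a * z x)).im) := by
        have h11 : (starRingEnd ℂ) a * (Complex.I * dir (θ x) / (‖mobd w a (z x)‖ : ℂ)) /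
            (1 - (starRingEnd ℂ) a * z x) = ((‖mobd w a (z x)‖⁻¹ : ℝ) : ℂ) *
              (((starRingEnd ℂ) a * dir (θ x) / (1 - (starRingEnd ℂ) a * z x)) * Complex.I) := by
          push_cast
          ring
        rw [h11, Complex.re_ofReal_mul, Complex.mul_I_re]
        ring
      have h12 : (-(starRingEnd ℂ) a / (1 - (starRingEnd ℂ) a * z x) *
          (dir (θ x) / (rho u (z x) : ℂ))).im = -((rho u (z x))⁻¹ *
            ((starRingEnd ℂ) a * dir (θ x) / (1 - (starRingEnd ℂ) a * z x)).im) := by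
        have h13 : -(starRingEnd ℂ) a / (1 - (starRingEnd ℂ) a * z x) *
            (dir (θ x) / (rho u (z x) : ℂ)) = -((((rho u (z x))⁻¹ : ℝ) : ℂ) *
              ((starRingEnd ℂ) a * dir (θ x) / (1 - (starRingEnd ℂ) a * z x))) := by
          push_cast
          ring
        rw [h13, Complex.neg_im, Complex.im_ofReal_mul]
      rw [h8, h10] at h7
      rw [h9, map_smul, smul_eq_mul] at h7
      unfold kap
      rw [h7, h12, ← hre]
      field_simp
      ring
    rw [h6]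
    rw [hθ']
    exact h5

end Pool.Agent.H.MP_bfbbee_an
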